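import Pool.Agent.Hhelper94.PennerAnnulus

/-!
# Antisymmetry of the intersection numbers of annuli
-/

namespace Pool.Agent.Hhelper31.Penner

open Set Filter Topology MeasureTheory

set_option linter.unusedSectionVars false

variable {S : Type} [TopologicalSpace S] {𝒜 : OrientedAtlas S}

/-! ### linear algebra in the plane -/

theorem det_comp_plane (P Q : (ℝ × ℝ) →L[ℝ] (ℝ × ℝ)) : (P.comp Q).det = P.det * Q.det := by
  exact LinearMap.det_comp (P : (ℝ × ℝ) →ₗ[ℝ] (ℝ × ℝ)) (Q : (ℝ × ℝ) →ₗ[ℝ] (ℝ × ℝ))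

theorem det_plane (P : (ℝ × ℝ) →L[ℝ] (ℝ × ℝ)) :
    P.det = (P (1, 0)).1 * (P (0, 1)).2 - (P (0, 1)).1 * (P (1, 0)).2 := by
  rw [ContinuousLinearMap.det, ← LinearMap.det_toMatrix (Module.Basis.finTwoProd ℝ),
    Matrix.det_fin_two]
  simp [LinearMap.toMatrix_apply]

theorem apply_plane (P : (ℝ × ℝ) →L[ℝ] (ℝ × ℝ)) (x y : ℝ) :
    P (x, y) = x • P (1, 0) + y • P (0, 1) := by
  rw [← map_smul, ← map_smul, ← map_add]
  congr 1
  ext <;> simp

/-- if `T' ∘ T = 1` then the lower left entries are related by the determinant -/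
theorem entry_inverse (T T' : (ℝ × ℝ) →L[ℝ] (ℝ × ℝ)) (h : T'.comp T = ContinuousLinearMap.id ℝ _) :
    (T (1, 0)).2 = - (T.det * (T' (1, 0)).2) := by
  have h1 : T' (T (1, 0)) = (1, 0) := by
    have := DFunLike.congr_fun h (1, 0)
    simpa using this
  have h2 : T' (T (0, 1)) = (0, 1) := by
    have := DFunLike.congr_fun h (0, 1)
    simpa using this
  set a := (T (1, 0)).1 with ha
  set c := (T (1, 0)).2 with hc
  set b := (T (0, 1)).1 with hb
  set d := (T (0, 1)).2 with hd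
  have e1 : T (1, 0) = (a, c) := rfl
  have e2 : T (0, 1) = (b, d) := rfl
  rw [e1, apply_plane] at h1
  rw [e2, apply_plane] at h2
  have g1 := congrArg Prod.snd h1
  have g2 := congrArg Prod.snd h2
  simp only [Prod.snd_add, Prod.smul_snd, smul_eq_mul] at g1 g2
  rw [det_plane]
  rw [← ha, ← hb, ← hc, ← hd]
  set p := (T' (1, 0)).2
  set q := (T' (0, 1)).2
  -- a p + c q = 0, b p + d q = 1
  linear_combination d * g1 - c * g2

namespace Annulus

variable (α β : Annulus 𝒜)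

/-- local injectivity -/
theorem eq_of_close {y y' : ℝ × ℝ} (h : α.toFun y = α.toFun y') (hd : |y.1 - y'.1| < 1) :
    y = y' := by
  obtain ⟨⟨n, hn⟩, h2⟩ := (α.eq_iff _ _).mp h
  rw [hn] at hd
  have h0 : n = 0 := by
    rw [← Int.cast_abs] at hd
    have : |n| < 1 := by exact_mod_cast hd
    exact Int.abs_lt_one_iff.mp this
  rw [h0] at hn
  ext
  · simp at hn; linarith
  · exact h2

/-- a local branch of `β⁻¹ ∘ α` -/
theorem exists_branch {p q : ℝ × ℝ} (h : α.toFun p = β.toFun q) : ∃ τ : ℝ × ℝ → ℝ × ℝ, τ p = q ∧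
    (∀ᶠ y in 𝓝 p, β.toFun (τ y) = α.toFun y) ∧ ContDiffAt ℝ 1 τ p ∧
      0 < (fderiv ℝ τ p).det := by
  obtain ⟨e, he, hs⟩ := 𝒜.covers (α.toFun p)
  have hs' : β.toFun q ∈ e.source := by rw [← h]; exact hs
  have hαd := α.oriented e he p hs
  have hαs : ContDiffAt ℝ 1 (fun p => e (α.toFun p)) p := (α.smooth e he p hs).of_le (by
    exact_mod_cast le_top)
  have hβd := β.oriented e he q hs'
  have hβs : ContDiffAt ℝ 1 (fun p => e (β.toFun p)) q := (β.smooth e he q hs').of_le (by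
    exact_mod_cast le_top)
  have hβf : HasFDerivAt (fun p => e (β.toFun p))
      ((clmEquiv _ hβd.ne' : (ℝ × ℝ) ≃L[ℝ] (ℝ × ℝ)) : (ℝ × ℝ) →L[ℝ] (ℝ × ℝ)) q := by
    rw [coe_clmEquiv]
    exact (hβs.differentiableAt (by simp)).hasFDerivAt
  set g : ℝ × ℝ → ℝ × ℝ := hβs.localInverse hβf (by simp) with hg
  have hg1 : g (e (β.toFun q)) = q := hβs.localInverse_apply_image hβf (by simp)
  have hg2 : ContDiffAt ℝ 1 g (e (β.toFun q)) := hβs.to_localInverse hβf (by simp)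
  have hg3 : ∀ᶠ y in 𝓝 (e (β.toFun q)), e (β.toFun (g y)) = y :=
    (hβs.hasStrictFDerivAt' hβf (by simp)).eventually_right_inverse
  set τ : ℝ × ℝ → ℝ × ℝ := fun y => g (e (α.toFun y)) with hτ
  have hτp : τ p = q := by simp only [hτ]; rw [h]; exact hg1
  have hτs : ContDiffAt ℝ 1 τ p := by
    have : ContDiffAt ℝ 1 g (e (α.toFun p)) := by rw [h]; exact hg2
    exact this.comp p hαs
  have hcα : Tendsto (fun y => e (α.toFun y)) (𝓝 p) (𝓝 (e (β.toFun q))) := by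
    have := hαs.continuousAt
    rw [ContinuousAt, h] at this
    exact this
  have hτc : Tendsto τ (𝓝 p) (𝓝 q) := by
    have := hτs.continuousAt
    rwa [ContinuousAt, hτp] at this
  have hev1 : ∀ᶠ y in 𝓝 p, e (β.toFun (τ y)) = e (α.toFun y) := hcα.eventually hg3
  have hev2 : ∀ᶠ y in 𝓝 p, α.toFun y ∈ e.source :=
    α.continuous_toFun.continuousAt.eventually (e.open_source.mem_nhds hs)
  have hev3 : ∀ᶠ y in 𝓝 p, β.toFun (τ y) ∈ e.source :=
    hτc.eventually (β.continuous_toFun.continuousAt.eventually (e.open_source.mem_nhds hs'))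
  have hev : ∀ᶠ y in 𝓝 p, β.toFun (τ y) = α.toFun y := by
    filter_upwards [hev1, hev2, hev3] with y h1 h2 h3
    exact e.injOn h3 h2 h1
  refine ⟨τ, hτp, hev, hτs, ?_⟩
  -- determinants
  have hcomp : fderiv ℝ (fun p => e (α.toFun p)) p =
      (fderiv ℝ (fun p => e (β.toFun p)) q).comp (fderiv ℝ τ p) := by
    have h1 : (fun y => e (β.toFun (τ y))) =ᶠ[𝓝 p] fun y => e (α.toFun y) := hev1
    rw [← h1.fderiv_eq]
    have h2 : HasFDerivAt (fun p => e (β.toFun p)) (fderiv ℝ (fun p => e (β.toFun p)) q) (τ p) := by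
      rw [hτp]
      exact (hβs.differentiableAt (by simp)).hasFDerivAt
    exact (h2.comp p (hτs.differentiableAt (by simp)).hasFDerivAt).fderiv
  rw [hcomp, det_comp_plane] at hαd
  exact (pos_iff_pos_of_mul_pos hαd).mp hβd

theorem branch_comp {p q : ℝ × ℝ} {τ τ' : ℝ × ℝ → ℝ × ℝ} (hτ : τ p = q) (hτ' : τ' q = p)
    (hc : ContinuousAt τ p) (hc' : ContinuousAt τ' q)
    (h : ∀ᶠ y in 𝓝 p, β.toFun (τ y) = α.toFun y)
    (h' : ∀ᶠ y in 𝓝 q, α.toFun (τ' y) = β.toFun y) : ∀ᶠ y in 𝓝 p, τ' (τ y) = y := by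
  have hcτ : Tendsto τ (𝓝 p) (𝓝 q) := by rwa [ContinuousAt, hτ] at hc
  have hcτ' : Tendsto τ' (𝓝 q) (𝓝 p) := by rwa [ContinuousAt, hτ'] at hc'
  have h1 : ∀ᶠ y in 𝓝 p, α.toFun (τ' (τ y)) = β.toFun (τ y) := hcτ.eventually h'
  have h2 : Tendsto (fun y => |(τ' (τ y)).1 - y.1|) (𝓝 p) (𝓝 0) := by
    have h3 : Tendsto (fun y => (τ' (τ y)).1 - y.1) (𝓝 p) (𝓝 (p.1 - p.1)) :=
      ((continuous_fst.tendsto p).comp (hcτ'.comp hcτ)).sub (continuous_fst.tendsto p)
    rw [sub_self] at h3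
    simpa using h3.abs
  have h4 : ∀ᶠ y in 𝓝 p, |(τ' (τ y)).1 - y.1| < 1 := h2.eventually (gt_mem_nhds (by norm_num))
  filter_upwards [h, h1, h4] with y e1 e2 e3
  exact α.eq_of_close (e2.trans e1) e3

theorem branch_deriv {p q : ℝ × ℝ} {τ τ' : ℝ × ℝ → ℝ × ℝ} (hτ : τ p = q)
    (hd : DifferentiableAt ℝ τ p) (hd' : DifferentiableAt ℝ τ' q)
    (h : ∀ᶠ y in 𝓝 p, τ' (τ y) = y) :
    (fderiv ℝ τ' q).comp (fderiv ℝ τ p) = ContinuousLinearMap.id ℝ _ := by
  have h1 : (fun y => τ' (τ y)) =ᶠ[𝓝 p] id := h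
  have h2 := h1.fderiv_eq (𝕜 := ℝ)
  rw [fderiv_id] at h2
  rw [← h2]
  have h3 : HasFDerivAt τ' (fderiv ℝ τ' q) (τ p) := by
    rw [hτ]; exact hd'.hasFDerivAt
  exact (h3.comp p hd.hasFDerivAt).fderiv.symm

end Annulus

/-! ### lifts of smooth dual functions -/

/-- the smooth profile -/
noncomputable def smC : C(ℝ, ℝ) :=
  ⟨Real.smoothTransition, (Real.smoothTransition.contDiff (n := 1)).continuous⟩

/-- derivative of the smooth profile -/
noncomputable def kap (t : ℝ) : ℝ := deriv Real.smoothTransition t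

theorem smC_apply (t : ℝ) : smC t = Real.smoothTransition t := rfl

theorem contDiff_sm : ContDiff ℝ 1 Real.smoothTransition := by
  have := Real.smoothTransition.contDiff (n := 1)
  exact_mod_cast this

theorem continuous_kap : Continuous kap := contDiff_sm.continuous_deriv (by simp)

theorem hasDerivAt_sm (t : ℝ) : HasDerivAt Real.smoothTransition (kap t) t :=
  (contDiff_sm.differentiable (by simp) t).hasDerivAt

theorem kap_of_nonpos {t : ℝ} (ht : t ≤ 0) : kap t = 0 := by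
  apply IsLocalMin.deriv_eq_zero
  apply Filter.Eventually.of_forall
  intro s
  rw [Real.smoothTransition.zero_of_nonpos ht]
  exact Real.smoothTransition.nonneg s

theorem kap_of_one_le {t : ℝ} (ht : 1 ≤ t) : kap t = 0 := by
  apply IsLocalMax.deriv_eq_zero
  apply Filter.Eventually.of_forall
  intro s
  rw [Real.smoothTransition.one_of_one_le ht]
  exact Real.smoothTransition.le_one s

/-- smooth dual -/
def IsSmDual (β : Annulus 𝒜) (w : C(S, 𝕋)) : Prop :=
  (∀ θ t : ℝ, w (β.toFun (θ, t)) = ((smC t : ℝ) : 𝕋)) ∧ ∀ x, x ∉ range β.toFun → w x = 0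

theorem eventually_eq_const {f : ℝ × ℝ → ℝ} {p : ℝ × ℝ} (hc : ContinuousAt f p)
    (h : ∀ᶠ y in 𝓝 p, ∃ n : ℤ, f y = n) : ∀ᶠ y in 𝓝 p, f y = f p := by
  obtain ⟨m, hm⟩ := h.self_of_nhds
  have h1 : ∀ᶠ y in 𝓝 p, |f y - f p| < 1 := by
    have := Metric.tendsto_nhds.mp hc 1 (by norm_num)
    simpa [Real.dist_eq] using this
  filter_upwards [h, h1] with y ⟨n, hn⟩ hy
  rw [hn, hm] at hy ⊢
  have h2 : |((n - m : ℤ) : ℝ)| < 1 := by push_cast; exact hy
  rw [← Int.cast_abs] at h2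
  have h3 : |n - m| < 1 := by exact_mod_cast h2
  have h4 := Int.abs_lt_one_iff.mp h3
  have : n = m := by omega
  rw [this]

variable [T2Space S]

section lift

variable {α β : Annulus 𝒜} {w : C(S, 𝕋)} (hw : IsSmDual β w) {X : C(ℝ × ℝ, ℝ)}
  (hX : ∀ p, ((X p : ℝ) : 𝕋) = w (α.toFun p))

include hw hX

theorem lift_eventually {p q : ℝ × ℝ} {τ : ℝ × ℝ → ℝ × ℝ} (hτ : τ p = q)
    (hc : ContinuousAt τ p) (h : ∀ᶠ y in 𝓝 p, β.toFun (τ y) = α.toFun y) :
    ∀ᶠ y in 𝓝 p, X y = Real.smoothTransition (τ y).2 + (X p - Real.smoothTransition q.2) := by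
  have h1 : ∀ᶠ y in 𝓝 p, (fun y => X y - Real.smoothTransition (τ y).2) y =
      (fun y => X y - Real.smoothTransition (τ y).2) p := by
    apply eventually_eq_const
    · apply X.continuous.continuousAt.sub
      exact contDiff_sm.continuous.continuousAt.comp (continuous_snd.continuousAt.comp hc)
    · filter_upwards [h] with y hy
      have h2 : ((X y : ℝ) : 𝕋) = ((Real.smoothTransition (τ y).2 : ℝ) : 𝕋) := by
        rw [hX, ← hy]
        exact hw.1 _ _
      obtain ⟨n, hn⟩ := (coe_eq_coe_iff _ _).1 h2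
      exact ⟨n, by rw [hn]; ring⟩
  filter_upwards [h1] with y hy
  simp only [hτ] at hy
  linarith

theorem lift_hasFDerivAt {p q : ℝ × ℝ} {τ : ℝ × ℝ → ℝ × ℝ} (hτ : τ p = q)
    (hd : ContDiffAt ℝ 1 τ p) (h : ∀ᶠ y in 𝓝 p, β.toFun (τ y) = α.toFun y) :
    ContDiffAt ℝ 1 X p ∧
      fderiv ℝ X p = kap q.2 • ((ContinuousLinearMap.snd ℝ ℝ ℝ).comp (fderiv ℝ τ p)) := by
  have h1 := lift_eventually hw hX hτ hd.continuousAt h
  have h1' : (X : ℝ × ℝ → ℝ) =ᶠ[𝓝 p]
      fun y => Real.smoothTransition (τ y).2 + (X p - Real.smoothTransition q.2) := h1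
  constructor
  · apply ContDiffAt.congr_of_eventuallyEq _ h1'
    apply ContDiffAt.add _ contDiffAt_const
    exact contDiff_sm.contDiffAt.comp p (contDiff_snd.contDiffAt.comp p hd)
  · rw [h1'.fderiv_eq]
    have h2 : HasFDerivAt (fun y => (τ y).2)
        ((ContinuousLinearMap.snd ℝ ℝ ℝ).comp (fderiv ℝ τ p)) p :=
      (ContinuousLinearMap.snd ℝ ℝ ℝ).hasFDerivAt.comp p
        (hd.differentiableAt (by simp)).hasFDerivAt
    have h3 : HasDerivAt Real.smoothTransition (kap q.2) (τ p).2 := by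
      rw [hτ]; exact hasDerivAt_sm _
    exact ((h3.comp_hasFDerivAt p h2).add_const _).fderiv

theorem lift_off {p : ℝ × ℝ} (hp : α.toFun p ∉ range β.toFun) :
    ContDiffAt ℝ 1 X p ∧ fderiv ℝ X p = 0 := by
  have hC : IsClosed (β.toFun '' (Icc (0:ℝ) 1 ×ˢ Icc (0:ℝ) 1)) := (β.isCompact_slab 0 1).isClosed
  have hpC : α.toFun p ∈ (β.toFun '' (Icc (0:ℝ) 1 ×ˢ Icc (0:ℝ) 1))ᶜ := by
    rintro ⟨q, -, hq⟩
    exact hp ⟨q, hq⟩
  have hev : ∀ᶠ y in 𝓝 p, α.toFun y ∈ (β.toFun '' (Icc (0:ℝ) 1 ×ˢ Icc (0:ℝ) 1))ᶜ :=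
    α.continuous_toFun.continuousAt.eventually (hC.isOpen_compl.mem_nhds hpC)
  have h1 : ∀ᶠ y in 𝓝 p, X y = X p := by
    apply eventually_eq_const X.continuous.continuousAt
    filter_upwards [hev] with y hy
    have h2 : ((X y : ℝ) : 𝕋) = 0 := by
      rw [hX]
      by_cases hy' : α.toFun y ∈ range β.toFun
      · obtain ⟨⟨θ, t⟩, hq⟩ := hy'
        rw [← hq] at hy ⊢
        rw [hw.1]
        have ht : t ∉ Icc (0:ℝ) 1 := fun ht => hy (β.mem_slab ht)
        rw [mem_Icc, not_and_or, not_le, not_le] at ht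
        rcases ht with ht | ht
        · rw [smC_apply, Real.smoothTransition.zero_of_nonpos ht.le]; simp
        · rw [smC_apply, Real.smoothTransition.one_of_one_le ht.le]; simp
      · exact hw.2 _ hy'
    exact (coe_eq_zero_iff _).mp h2
  have h1' : (X : ℝ × ℝ → ℝ) =ᶠ[𝓝 p] fun _ => X p := h1
  exact ⟨contDiffAt_const.congr_of_eventuallyEq h1', by rw [h1'.fderiv_eq]; simp⟩

theorem lift_contDiff : ContDiff ℝ 1 X := by
  rw [contDiff_iff_contDiffAt]
  intro p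
  by_cases hp : α.toFun p ∈ range β.toFun
  · obtain ⟨q, hq⟩ := hp
    obtain ⟨τ, h1, h2, h3, -⟩ := α.exists_branch β hq.symm
    exact (lift_hasFDerivAt hw hX h1 h3 h2).1
  · exact (lift_off hw hX hp).1

end lift

/-- the open unit square -/
def Q : Set (ℝ × ℝ) := Ioo (0:ℝ) 1 ×ˢ Ioo (0:ℝ) 1

theorem isOpen_Q : IsOpen Q := isOpen_Ioo.prod isOpen_Ioo

/-- the density -/
noncomputable def dens (X : C(ℝ × ℝ, ℝ)) (z : ℝ × ℝ) : ℝ := kap z.2 * fderiv ℝ X z (1, 0)

theorem degree_eq_integral {X : C(ℝ × ℝ, ℝ)} (hX : ContDiff ℝ 1 X) {d : ℤ}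
    (hd : ∀ θ t, X (θ + 1, t) = X (θ, t) + d) : (d : ℝ) = ∫ z in Q, dens X z := by
  have hcont : Continuous (dens X) := by
    apply (continuous_kap.comp continuous_snd).mul
    have h1 : Continuous (fderiv ℝ X) := hX.continuous_fderiv (by simp)
    exact h1.clm_apply continuous_const
  have hint : IntegrableOn (dens X) (Ioo (0:ℝ) 1 ×ˢ Ioo (0:ℝ) 1) := by
    have h1 : IntegrableOn (dens X) (Icc (0:ℝ) 1 ×ˢ Icc (0:ℝ) 1) :=
      hcont.continuousOn.integrableOn_compact (isCompact_Icc.prod isCompact_Icc)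
    exact h1.mono_set (Set.prod_mono Ioo_subset_Icc_self Ioo_subset_Icc_self)
  have h2 : ∫ z in Q, dens X z = ∫ t in Ioo (0:ℝ) 1, ∫ θ in Ioo (0:ℝ) 1, dens X (θ, t) := by
    unfold Q
    rw [Measure.volume_eq_prod, ← Measure.prod_restrict]
    apply integral_prod_symm
    rw [Measure.prod_restrict, ← Measure.volume_eq_prod]
    exact hint
  have h3 : ∀ t : ℝ, ∫ θ in Ioo (0:ℝ) 1, dens X (θ, t) = kap t * d := by
    intro t
    rw [← integral_Ioc_eq_integral_Ioo, ← intervalIntegral.integral_of_le (by norm_num)]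
    unfold dens
    simp only
    rw [intervalIntegral.integral_const_mul]
    congr 1
    have h4 : ∀ θ ∈ Set.uIcc (0:ℝ) 1, HasDerivAt (fun θ => X (θ, t)) (fderiv ℝ X (θ, t) (1, 0)) θ := by
      intro θ _
      have h5 : HasFDerivAt X (fderiv ℝ X (θ, t)) (θ, t) :=
        (hX.differentiable (by simp) (θ, t)).hasFDerivAt
      have h6 : HasDerivAt (fun θ : ℝ => ((θ, t) : ℝ × ℝ)) (1, 0) θ :=
        (hasDerivAt_id θ).prodMk (hasDerivAt_const θ t)
      exact h5.comp_hasDerivAt θ h6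
    rw [intervalIntegral.integral_eq_sub_of_hasDerivAt h4]
    · have := hd 0 t
      rw [zero_add] at this
      rw [this]
      ring
    · apply Continuous.intervalIntegrable
      have h1 : Continuous (fderiv ℝ X) := hX.continuous_fderiv (by simp)
      exact (h1.comp (by fun_prop : Continuous fun θ : ℝ => ((θ, t) : ℝ × ℝ))).clm_apply
        continuous_const
  rw [h2]
  simp only [h3]
  rw [← integral_Ioc_eq_integral_Ioo, ← intervalIntegral.integral_of_le (by norm_num),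
    intervalIntegral.integral_mul_const,
    intervalIntegral.integral_eq_sub_of_hasDerivAt (fun t _ => hasDerivAt_sm t)
      (continuous_kap.intervalIntegrable _ _),
    Real.smoothTransition.one_of_one_le le_rfl, Real.smoothTransition.zero_of_nonpos le_rfl]
  ring

/-- the cut lines are null sets -/
theorem volume_cut (α β : Annulus 𝒜) :
    volume {z : ℝ × ℝ | ∃ s : ℝ, α.toFun z = β.toFun (0, s)} = 0 := by
  apply measure_null_of_locally_null
  rintro z ⟨s, hz⟩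
  obtain ⟨τ, h1, h2, h3, -⟩ := α.exists_branch β hz
  obtain ⟨τ', h1', h2', h3', -⟩ := β.exists_branch α hz.symm
  have hcomp := α.branch_comp β h1 h1' h3.continuousAt h3'.continuousAt h2 h2'
  have hdiff : ∀ᶠ y in 𝓝 ((0, s) : ℝ × ℝ), DifferentiableAt ℝ τ' y := by
    have := h3'.eventually (by simp)
    exact this.mono fun y hy => hy.differentiableAt (by simp)
  have hτc : Tendsto τ (𝓝 z) (𝓝 (0, s)) := by
    have := h3.continuousAt
    rwa [ContinuousAt, h1] at this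
  have hev1 : ∀ᶠ y in 𝓝 z, DifferentiableAt ℝ τ' (τ y) := hτc.eventually hdiff
  have hev2 : ∀ᶠ y in 𝓝 z, |(τ y).1| < 1 := by
    have h4 : Tendsto (fun y => |(τ y).1|) (𝓝 z) (𝓝 |0|) :=
      ((continuous_fst.tendsto _).comp hτc).abs
    rw [abs_zero] at h4
    exact h4.eventually (gt_mem_nhds (by norm_num))
  set L : Set (ℝ × ℝ) := {q | q.1 = 0 ∧ DifferentiableAt ℝ τ' q} with hL
  have hLnull : volume L = 0 := by
    have h5 : L ⊆ ({0} : Set ℝ) ×ˢ (univ : Set ℝ) := by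
      rintro q ⟨hq, -⟩
      exact ⟨hq, trivial⟩
    apply measure_mono_null h5
    rw [Measure.volume_eq_prod, Measure.prod_prod]
    simp
  refine ⟨{y | (∃ s : ℝ, α.toFun y = β.toFun (0, s)) ∧ β.toFun (τ y) = α.toFun y ∧
    τ' (τ y) = y ∧ DifferentiableAt ℝ τ' (τ y) ∧ |(τ y).1| < 1}, ?_, ?_⟩
  · have h6 : ∀ᶠ y in 𝓝[{z : ℝ × ℝ | ∃ s : ℝ, α.toFun z = β.toFun (0, s)}] z,
        ∃ s : ℝ, α.toFun y = β.toFun (0, s) := eventually_mem_nhdsWithin
    filter_upwards [h6, mem_nhdsWithin_of_mem_nhds h2, mem_nhdsWithin_of_mem_nhds hcomp,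
      mem_nhdsWithin_of_mem_nhds hev1, mem_nhdsWithin_of_mem_nhds hev2] with y g1 g2 g3 g4 g5
    exact ⟨g1, g2, g3, g4, g5⟩
  · apply measure_mono_null (t := τ' '' L)
    · rintro y ⟨⟨s', hs'⟩, g2, g3, g4, g5⟩
      refine ⟨τ y, ⟨?_, g4⟩, g3⟩
      have h7 := β.eq_of_close (g2.trans hs') (by simpa using g5)
      rw [h7]
    · apply addHaar_image_eq_zero_of_differentiableOn_of_addHaar_eq_zero _ _ hLnull
      intro q hq
      exact hq.2.differentiableWithinAt

/-- the part of the unit square of `α` which lies over the unit square of `β`. -/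
def Om (α β : Annulus 𝒜) : Set (ℝ × ℝ) := Q ∩ {z | α.toFun z ∈ β.toFun '' Q}

theorem isOpen_Om (α β : Annulus 𝒜) : IsOpen (Om α β) :=
  isOpen_Q.inter ((β.isOpenMap _ isOpen_Q).preimage α.continuous_toFun)

theorem integral_Q_eq_integral_Om {α β : Annulus 𝒜} {w : C(S, 𝕋)} (hw : IsSmDual β w)
    {X : C(ℝ × ℝ, ℝ)} (hX : ∀ p, ((X p : ℝ) : 𝕋) = w (α.toFun p)) :
    ∫ z in Q, dens X z = ∫ z in Om α β, dens X z := by
  apply setIntegral_eq_of_subset_of_ae_sdiff_eq_zero isOpen_Q.measurableSet.nullMeasurableSet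
    inter_subset_left
  have h1 : ∀ᵐ z : ℝ × ℝ, z ∉ {z : ℝ × ℝ | ∃ s : ℝ, α.toFun z = β.toFun (0, s)} :=
    measure_eq_zero_iff_ae_notMem.mp (volume_cut α β)
  filter_upwards [h1] with z hz hzQ
  unfold dens
  by_cases hr : α.toFun z ∈ range β.toFun
  · obtain ⟨q, hq⟩ := hr
    obtain ⟨τ, h1, h2, h3, -⟩ := α.exists_branch β hq.symm
    rw [(lift_hasFDerivAt hw hX h1 h3 h2).2]
    have hq2 : ¬ (0 < q.2 ∧ q.2 < 1) := by
      rintro ⟨hq0, hq1⟩
      rcases eq_or_lt_of_le (Int.fract_nonneg q.1) with h4 | h4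
      · apply hz
        refine ⟨q.2, ?_⟩
        rw [← hq, β.eq_iff]
        refine ⟨⟨⌊q.1⌋, ?_⟩, rfl⟩
        have := Int.self_sub_fract q.1
        rw [← h4] at this
        exact this
      · apply hzQ.2
        refine ⟨hzQ.1, ⟨(Int.fract q.1, q.2), ⟨⟨h4, Int.fract_lt_one _⟩, ⟨hq0, hq1⟩⟩, ?_⟩⟩
        rw [← hq, β.eq_iff]
        refine ⟨⟨-⌊q.1⌋, ?_⟩, rfl⟩
        have := Int.self_sub_fract q.1
        push_cast
        linarith
    have hk : kap q.2 = 0 := by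
      rw [not_and_or, not_lt, not_lt] at hq2
      rcases hq2 with h | h
      · exact kap_of_nonpos h
      · exact kap_of_one_le h
    rw [hk]
    simp
  · rw [(lift_off hw hX hr).2]
    simp

theorem integral_Om_symm {α β : Annulus 𝒜} {v w : C(S, 𝕋)} (hv : IsSmDual α v)
    (hw : IsSmDual β w) {X Y : C(ℝ × ℝ, ℝ)} (hX : ∀ p, ((X p : ℝ) : 𝕋) = w (α.toFun p))
    (hY : ∀ p, ((Y p : ℝ) : 𝕋) = v (β.toFun p)) :
    ∫ z in Om β α, dens Y z = - ∫ z in Om α β, dens X z := by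
  classical
  have hQ : ∀ {a b : ℝ × ℝ}, a ∈ Q → b ∈ Q → |a.1 - b.1| < 1 := by
    rintro a b ⟨⟨ha, ha'⟩, -⟩ ⟨⟨hb, hb'⟩, -⟩
    rw [abs_lt]
    constructor <;> linarith
  set f : ℝ × ℝ → ℝ × ℝ := fun z => if h : ∃ q ∈ Q, β.toFun q = α.toFun z then h.choose else 0
    with hf
  have hf1 : ∀ z ∈ Om α β, f z ∈ Q ∧ β.toFun (f z) = α.toFun z := by
    rintro z ⟨-, h⟩
    have h' : ∃ q ∈ Q, β.toFun q = α.toFun z := h
    simp only [hf]
    rw [dif_pos h']
    exact h'.choose_spec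
  have hinj : InjOn f (Om α β) := by
    intro z hz z' hz' hzz
    apply α.eq_of_close _ (hQ hz.1 hz'.1)
    rw [← (hf1 z hz).2, ← (hf1 z' hz').2, hzz]
  have himg : f '' Om α β = Om β α := by
    ext q
    constructor
    · rintro ⟨z, hz, rfl⟩
      exact ⟨(hf1 z hz).1, ⟨z, hz.1, (hf1 z hz).2.symm⟩⟩
    · rintro ⟨hq, z, hz, hzq⟩
      have hz' : z ∈ Om α β := ⟨hz, ⟨q, hq, hzq.symm⟩⟩
      refine ⟨z, hz', ?_⟩
      apply β.eq_of_close _ (hQ (hf1 z hz').1 hq)
      rw [(hf1 z hz').2, hzq]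
  -- comparison with the local branches
  have hbr : ∀ z ∈ Om α β, ∀ τ : ℝ × ℝ → ℝ × ℝ, τ z = f z → ContinuousAt τ z →
      (∀ᶠ y in 𝓝 z, β.toFun (τ y) = α.toFun y) → f =ᶠ[𝓝 z] τ := by
    intro z hz τ hτ hc h
    have h1 : ∀ᶠ y in 𝓝 z, y ∈ Om α β := (isOpen_Om α β).mem_nhds hz
    have h2 : ∀ᶠ y in 𝓝 z, τ y ∈ Q := by
      have : Tendsto τ (𝓝 z) (𝓝 (f z)) := by rwa [ContinuousAt, hτ] at hc
      exact this.eventually (isOpen_Q.mem_nhds (hf1 z hz).1)
    filter_upwards [h, h1, h2] with y g1 g2 g3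
    apply β.eq_of_close _ (hQ (hf1 y g2).1 g3)
    rw [(hf1 y g2).2, g1]
  have hkey : ∀ z ∈ Om α β, HasFDerivAt f (fderiv ℝ f z) z ∧
      |(fderiv ℝ f z).det| • dens Y (f z) = - dens X z := by
    intro z hz
    obtain ⟨τ, h1, h2, h3, h4⟩ := α.exists_branch β (p := z) (q := f z) (hf1 z hz).2.symm
    obtain ⟨τ', h1', h2', h3', -⟩ := β.exists_branch α (p := f z) (q := z) (hf1 z hz).2
    have hev := hbr z hz τ h1 h3.continuousAt h2
    have hfd : fderiv ℝ f z = fderiv ℝ τ z := hev.fderiv_eq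
    have hdiff : DifferentiableAt ℝ f z :=
      (h3.differentiableAt (by simp)).congr_of_eventuallyEq hev
    refine ⟨hdiff.hasFDerivAt, ?_⟩
    have hcomp := α.branch_comp β h1 h1' h3.continuousAt h3'.continuousAt h2 h2'
    have hinv := Annulus.branch_deriv h1 (h3.differentiableAt (by simp))
      (h3'.differentiableAt (by simp)) hcomp
    have hent := entry_inverse _ _ hinv
    rw [hfd, abs_of_pos h4, smul_eq_mul]
    unfold dens
    rw [(lift_hasFDerivAt hw hX h1 h3 h2).2, (lift_hasFDerivAt hv hY h1' h3' h2').2]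
    simp only [smul_apply, ContinuousLinearMap.comp_apply,
      ContinuousLinearMap.coe_snd', smul_eq_mul]
    rw [hent]
    ring
  have hcv := integral_image_eq_integral_abs_det_fderiv_smul volume (isOpen_Om α β).measurableSet
    (fun z hz => (hkey z hz).1.hasFDerivWithinAt) hinj (dens Y)
  rw [himg] at hcv
  rw [hcv, ← integral_neg]
  exact setIntegral_congr_fun (isOpen_Om α β).measurableSet fun z hz => (hkey z hz).2

theorem degFn_smDual_antisymm (α β : Annulus 𝒜) (v w : C(S, 𝕋)) (hv : IsSmDual α v)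
    (hw : IsSmDual β w) : (degFn α).1 w = - (degFn β).1 v := by
  obtain ⟨X, d, hX, hXd, hdeg⟩ := exists_lift_annulus α w
  obtain ⟨Y, d', hY, hYd, hdeg'⟩ := exists_lift_annulus β v
  have h1 := degree_eq_integral (lift_contDiff hw hX) hXd
  have h2 := degree_eq_integral (lift_contDiff hv hY) hYd
  rw [integral_Q_eq_integral_Om hw hX] at h1
  rw [integral_Q_eq_integral_Om hv hY, integral_Om_symm hv hw hX hY, ← h1] at h2
  rw [hdeg, hdeg']
  have h3 : (d' : ℝ) = ((-d : ℤ) : ℝ) := by push_cast; exact h2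
  have h4 : d' = -d := by exact_mod_cast h3
  rw [h4]
  push_cast
  ring

theorem exists_smDual (β : Annulus 𝒜) (w : C(S, 𝕋)) (hw : IsDual β w) :
    ∃ w' : C(S, 𝕋), IsSmDual β w' ∧ ∀ ξ : Fn S, ξ.1 w = ξ.1 w' := by
  have h0 : ∀ t ≤ 0, smC t = 0 := fun t ht => Real.smoothTransition.zero_of_nonpos ht
  have h1 : ∀ t, 1 ≤ t → smC t = 1 := fun t ht => Real.smoothTransition.one_of_one_le ht
  obtain ⟨w', hw', hwn'⟩ := exists_dual_profile β smC h0 h1
  obtain ⟨k, hk⟩ := dual_sub_profile β clampC smC (fun _ => clampC_of_nonpos)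
    (fun _ => clampC_of_one_le) h0 h1 w w' (fun θ t => hw.1 θ t) hw.2 hw' hwn'
  exact ⟨w', ⟨hw', hwn'⟩, fun ξ => by rw [hk, map_add, fn_expo, add_zero]⟩

/-- **antisymmetry** of the algebraic intersection numbers -/
theorem degFn_dual_antisymm (α β : Annulus 𝒜) (v w : C(S, 𝕋)) (hv : IsDual α v)
    (hw : IsDual β w) : (degFn α).1 w = - (degFn β).1 v := by
  obtain ⟨v', hv', hv''⟩ := exists_smDual α v hv
  obtain ⟨w', hw', hw''⟩ := exists_smDual β w hw
  rw [hv'', hw'']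
  exact degFn_smDual_antisymm α β v' w' hv' hw'

end Pool.Agent.Hhelper31.Penner
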