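import Pool.Agent.Hhelper31.Penner.Lines

/-!
# Images of the edges under the map `f`
-/

namespace Pool.Agent.Hhelper31.Penner

open Set Filter Topology Complex

set_option linter.unusedSectionVars false

/-! ### uniqueness of lifts -/

/-- fourth roots of unity are isolated -/
theorem const_of_pow_four {Y : Type} [TopologicalSpace Y] [PreconnectedSpace Y] {r : Y → ℂ}
    (hr : Continuous r) (h : ∀ y, r y ^ 4 = 1) (a b : Y) : r a = r b := by
  have hfin : ({z : ℂ | z ^ 4 = 1} : Set ℂ).Finite := by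
    have h1 : ({z : ℂ | z ^ 4 = 1} : Set ℂ) = ↑(Polynomial.nthRootsFinset 4 (1 : ℂ)) := by
      ext z
      simp
    rw [h1]
    exact Finset.finite_toSet _
  exact isPreconnected_univ.constant_of_mapsTo (T := {z : ℂ | z ^ 4 = 1}) hfin.isDiscrete
    hr.continuousOn (fun y _ => h y) trivial trivial

theorem Surf.lift_unique {Y : Type} [TopologicalSpace Y] [PreconnectedSpace Y] (c c' : C(Y, Surf))
    (hb : ∀ y, (c y).base = (c' y).base) {y₀ : Y} (h : c y₀ = c' y₀) (y : Y) : c y = c' y := by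
  apply Surf.ext (hb y)
  have hcont : Continuous fun y => (c y).root / (c' y).root :=
    (Surf.continuous_root.comp c.continuous).div (Surf.continuous_root.comp c'.continuous)
      (fun y => (c' y).root_ne)
  have h4 : ∀ y, ((c y).root / (c' y).root) ^ 4 = 1 := by
    intro y
    rw [div_pow, Surf.root_pow, Surf.root_pow, hb]
    exact div_self (c' y).FF_ne
  have h1 := const_of_pow_four hcont h4 y y₀
  rw [h, div_self (c' y₀).root_ne, div_eq_one_iff_eq (c' y).root_ne] at h1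
  exact h1

/-! ### the parallelograms -/

/-- an open parallelogram without half-integral points -/
def KK (P : ℝ × ℝ) : Set (ℝ × ℝ) :=
  {z | -(1 / 16) < z.2 - P.2 ∧ z.2 - P.2 < 9 / 16 ∧
    -(1 / 16) < (z.1 - P.1) - (z.2 - P.2) / 2 ∧ (z.1 - P.1) - (z.2 - P.2) / 2 < 5 / 16}

theorem isOpen_KK (P : ℝ × ℝ) : IsOpen (KK P) := by
  exact (isOpen_lt (by fun_prop) (by fun_prop)).and
    ((isOpen_lt (by fun_prop) (by fun_prop)).and
      ((isOpen_lt (by fun_prop) (by fun_prop)).and (isOpen_lt (by fun_prop) (by fun_prop))))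

theorem convex_KK (P : ℝ × ℝ) : Convex ℝ (KK P) := by
  rintro z ⟨h1, h2, h3, h4⟩ w ⟨g1, g2, g3, g4⟩ a b ha hb hab
  have hb' : b = 1 - a := by linarith
  subst hb'
  simp only [KK, Set.mem_ofPred_eq, Prod.fst_add, Prod.snd_add, Prod.smul_fst, Prod.smul_snd,
    smul_eq_mul]
  rcases eq_or_lt_of_le ha with ha0 | ha0
  · subst ha0
    refine ⟨by linarith, by linarith, by linarith, by linarith⟩
  · refine ⟨?_, ?_, ?_, ?_⟩ <;> nlinarith

theorem mem_KK_self (P : ℝ × ℝ) : P ∈ KK P := by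
  refine ⟨by norm_num, by norm_num, by norm_num, by norm_num⟩

/-- the base points -/
def Good (P : ℝ × ℝ) : Prop := ∃ m n : ℤ, P.1 = m / 2 ∧ P.2 = 1 / 4 + n / 2

theorem sn_eq_zero_iff (x : ℝ) : sn (x : 𝕋) = 0 ↔ ∃ n : ℤ, x = n / 2 := by
  rw [sn_coe, Real.sin_eq_zero_iff]
  constructor
  · rintro ⟨n, hn⟩
    refine ⟨n, ?_⟩
    have hpi := Real.pi_pos
    have : Real.pi * (n - 2 * x) = 0 := by linarith
    rcases mul_eq_zero.mp this with h | h
    · exact absurd h hpi.ne'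
    · linarith
  · rintro ⟨n, hn⟩
    exact ⟨n, by rw [hn]; ring⟩

theorem FF_ne_of_mem_KK {P : ℝ × ℝ} (hP : Good P) {z : ℝ × ℝ} (hz : z ∈ KK P) :
    FF (tor z) ≠ 0 := by
  intro h
  rw [FF_eq_zero_iff] at h
  obtain ⟨h1, h2⟩ := h
  simp only [tor] at h1 h2
  rw [sn_eq_zero_iff] at h1 h2
  obtain ⟨a, ha⟩ := h1
  obtain ⟨b, hb⟩ := h2
  obtain ⟨m, n, hm, hn⟩ := hP
  obtain ⟨g1, g2, g3, g4⟩ := hz
  rw [ha, hb, hm, hn] at *
  -- (b - n)/2 - 1/4 ∈ (-1/16, 9/16) forces b - n = 1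
  have h3 : (0 : ℝ) < b - n := by linarith
  have h4 : ((b : ℝ) - n) < 2 := by linarith
  have h3' : (0 : ℤ) < b - n := by exact_mod_cast h3
  have h4' : b - n < 2 := by exact_mod_cast h4
  have h5 : b - n = 1 := by omega
  have h6 : (b : ℝ) - n = 1 := by exact_mod_cast h5
  have h7 : (0 : ℝ) < a - m := by linarith
  have h8 : (a : ℝ) - m < 1 := by linarith
  have h7' : (0 : ℤ) < a - m := by exact_mod_cast h7
  have h8' : a - m < 1 := by exact_mod_cast h8
  omega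

theorem simplyConnected_KK (P : ℝ × ℝ) : SimplyConnectedSpace (KK P) := by
  have := (convex_KK P).contractibleSpace ⟨P, mem_KK_self P⟩
  infer_instance

/-- a section of the surface over the parallelogram through a given point. -/
theorem exists_sectionKK {P : ℝ × ℝ} (hP : Good P) (q : Surf) (hq : q.base = tor P) :
    ∃ s : C(KK P, Surf), (∀ z, (s z).base = tor z) ∧ s ⟨P, mem_KK_self P⟩ = q := by
  obtain ⟨f, hf, hf4⟩ := Complex.exists_continuousOn_pow_eq (X := ℝ × ℝ) (U := KK P)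
    (simplyConnected_KK P) (isOpen_KK P) (g := fun z => FF (tor z))
    (continuous_FF.comp continuous_tor).continuousOn (by
      rintro ⟨z, hz, hz0⟩
      exact FF_ne_of_mem_KK hP hz hz0) (n := 4) (by norm_num)
  have hf0 : ∀ z ∈ KK P, f z ≠ 0 := by
    intro z hz h0
    apply FF_ne_of_mem_KK hP hz
    rw [← hf4, h0]
    norm_num
  set ζ : ℂ := q.root / f P with hζ
  have hζ4 : ζ ^ 4 = 1 := by
    rw [hζ, div_pow, q.root_pow, hq, hf4]
    exact div_self (FF_ne_of_mem_KK hP (mem_KK_self P))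
  have hζ0 : ζ ≠ 0 := div_ne_zero q.root_ne (hf0 P (mem_KK_self P))
  refine ⟨⟨fun z => Surf.mk (tor z) (ζ * f z) (mul_ne_zero hζ0 (hf0 z z.2)) (by
    rw [mul_pow, hζ4, one_mul, hf4]), ?_⟩, fun z => rfl, ?_⟩
  · apply Surf.continuous_mk (continuous_tor.comp continuous_subtype_val)
    exact continuous_const.mul (continuousOn_iff_continuous_domRestrict.mp hf)
  · apply Surf.ext
    · exact hq.symm
    · change ζ * f P = q.root
      rw [hζ, div_mul_cancel₀]
      exact hf0 P (mem_KK_self P)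

/-! ### increments of paths inside a parallelogram -/

/-- clamping to an interval -/
noncomputable def clampAB (a b : ℝ) : C(ℝ, ℝ) := ⟨fun t => max a (min b t), by fun_prop⟩

theorem clampAB_mem {a b : ℝ} (hab : a ≤ b) (t : ℝ) : clampAB a b t ∈ Icc a b :=
  ⟨le_max_left _ _, max_le hab (min_le_left _ _)⟩

theorem clampAB_of_mem {a b t : ℝ} (ht : t ∈ Icc a b) : clampAB a b t = t := by
  change max a (min b t) = t
  rw [min_eq_right ht.2, max_eq_right ht.1]

theorem inc_in_KK {P : ℝ × ℝ} (s : C(KK P, Surf)) (hs : ∀ z, (s z).base = tor z)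
    (u : C(Surf, 𝕋)) (R : C(KK P, ℝ)) (hR : ∀ z, ((R z : ℝ) : 𝕋) = u (s z))
    (c : C(ℝ, Surf)) (γ : C(ℝ, ℝ × ℝ)) {a b : ℝ} (hab : a ≤ b) (hK : ∀ t ∈ Icc a b, γ t ∈ KK P)
    (hbase : ∀ t ∈ Icc a b, (c t).base = tor (γ t))
    (hstart : c a = s ⟨γ a, hK a ⟨le_rfl, hab⟩⟩) :
    inc (u.comp c) a b = R ⟨γ b, hK b ⟨hab, le_rfl⟩⟩ - R ⟨γ a, hK a ⟨le_rfl, hab⟩⟩ ∧
      c b = s ⟨γ b, hK b ⟨hab, le_rfl⟩⟩ := by
  set r := clampAB a b with hr
  have hra : r a = a := clampAB_of_mem ⟨le_rfl, hab⟩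
  have hrb : r b = b := clampAB_of_mem ⟨hab, le_rfl⟩
  set γr : C(ℝ, KK P) := ⟨fun t => ⟨γ (r t), hK _ (clampAB_mem hab t)⟩,
    (γ.continuous.comp r.continuous).subtype_mk _⟩ with hγr
  have hγa : γr a = ⟨γ a, hK a ⟨le_rfl, hab⟩⟩ := Subtype.ext (by simp only [hγr, ContinuousMap.coe_mk]; rw [hra])
  have hγb : γr b = ⟨γ b, hK b ⟨hab, le_rfl⟩⟩ := Subtype.ext (by simp only [hγr, ContinuousMap.coe_mk]; rw [hrb])
  have heq : ∀ t, (c.comp r) t = (s.comp γr) t := by
    apply Surf.lift_unique (c.comp r) (s.comp γr) _ (y₀ := a)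
    · rw [ContinuousMap.comp_apply, ContinuousMap.comp_apply, hra, hγa]
      exact hstart
    · intro t
      rw [ContinuousMap.comp_apply, ContinuousMap.comp_apply, hs]
      exact hbase _ (clampAB_mem hab t)
  constructor
  · have h1 : inc (u.comp c) a b = inc ((u.comp c).comp r) a b := by
      rw [inc_comp, hra, hrb]
    rw [h1, inc_eq ((u.comp c).comp r) (R.comp γr)]
    · rw [ContinuousMap.comp_apply, ContinuousMap.comp_apply, hγa, hγb]
    · intro t
      rw [ContinuousMap.comp_apply, hR]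
      have := heq t
      rw [ContinuousMap.comp_apply, ContinuousMap.comp_apply] at this
      rw [← this]
      rfl
  · have := heq b
    rw [ContinuousMap.comp_apply, ContinuousMap.comp_apply, hrb, hγb] at this
    exact this

/-- **The diamond lemma**: the diagonal path from `P` to `P + (1/2, 1/2)` has the same increment as
the three-piece path through `P + (1/4, 0)` and `P + (1/4, 1/2)`. -/
theorem diamond {P : ℝ × ℝ} (hP : Good P) (u : C(Surf, 𝕋)) (c₀ c₁ c₂ c₃ : C(ℝ, Surf))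
    (t₀ t₁ t₂ t₃ : ℝ)
    (h₀ : ∀ t ∈ Icc t₀ (t₀ + 1 / 2), (c₀ t).base = tor (P.1 + (t - t₀), P.2 + (t - t₀)))
    (h₁ : ∀ t ∈ Icc t₁ (t₁ + 1 / 4), (c₁ t).base = tor (P.1 + (t - t₁), P.2))
    (h₂ : ∀ t ∈ Icc t₂ (t₂ + 1 / 2), (c₂ t).base = tor (P.1 + 1 / 4, P.2 + (t - t₂)))
    (h₃ : ∀ t ∈ Icc t₃ (t₃ + 1 / 4), (c₃ t).base = tor (P.1 + 1 / 4 + (t - t₃), P.2 + 1 / 2))
    (e₁ : c₀ t₀ = c₁ t₁) (e₂ : c₁ (t₁ + 1 / 4) = c₂ t₂) (e₃ : c₂ (t₂ + 1 / 2) = c₃ t₃) :
    inc (u.comp c₀) t₀ (t₀ + 1 / 2) = inc (u.comp c₁) t₁ (t₁ + 1 / 4) +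
      inc (u.comp c₂) t₂ (t₂ + 1 / 2) + inc (u.comp c₃) t₃ (t₃ + 1 / 4) ∧
      c₀ (t₀ + 1 / 2) = c₃ (t₃ + 1 / 4) := by
  have hb : (c₀ t₀).base = tor P := by
    rw [h₀ t₀ ⟨le_rfl, by linarith⟩]
    simp
  obtain ⟨s, hs, hsP⟩ := exists_sectionKK hP (c₀ t₀) hb
  have := simplyConnected_KK P
  have := (convex_KK P).locallyPathConnectedSpace
  obtain ⟨R, hR⟩ := exists_lift (u.comp s)
  have hR' : ∀ z, ((R z : ℝ) : 𝕋) = u (s z) := hR
  -- the four paths
  obtain ⟨i0, j0⟩ := inc_in_KK s hs u R hR' c₀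
    ⟨fun t => (P.1 + (t - t₀), P.2 + (t - t₀)), by fun_prop⟩ (a := t₀) (b := t₀ + 1 / 2)
    (by linarith) (by
      rintro t ⟨g1, g2⟩
      simp only [KK, Set.mem_ofPred_eq, ContinuousMap.coe_mk]
      refine ⟨by linarith, by linarith, by linarith, by linarith⟩) h₀ (by
      rw [← hsP]
      congr 1
      apply Subtype.ext
      simp)
  obtain ⟨i1, j1⟩ := inc_in_KK s hs u R hR' c₁
    ⟨fun t => (P.1 + (t - t₁), P.2), by fun_prop⟩ (a := t₁) (b := t₁ + 1 / 4)
    (by linarith) (by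
      rintro t ⟨g1, g2⟩
      simp only [KK, Set.mem_ofPred_eq, ContinuousMap.coe_mk]
      refine ⟨by linarith, by linarith, by linarith, by linarith⟩) h₁ (by
      rw [← e₁, ← hsP]
      congr 1
      apply Subtype.ext
      simp)
  obtain ⟨i2, j2⟩ := inc_in_KK s hs u R hR' c₂
    ⟨fun t => (P.1 + 1 / 4, P.2 + (t - t₂)), by fun_prop⟩ (a := t₂) (b := t₂ + 1 / 2)
    (by linarith) (by
      rintro t ⟨g1, g2⟩
      simp only [KK, Set.mem_ofPred_eq, ContinuousMap.coe_mk]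
      refine ⟨by linarith, by linarith, by linarith, by linarith⟩) h₂ (by
      rw [← e₂, j1]
      congr 1
      apply Subtype.ext
      simp)
  obtain ⟨i3, j3⟩ := inc_in_KK s hs u R hR' c₃
    ⟨fun t => (P.1 + 1 / 4 + (t - t₃), P.2 + 1 / 2), by fun_prop⟩ (a := t₃) (b := t₃ + 1 / 4)
    (by linarith) (by
      rintro t ⟨g1, g2⟩
      simp only [KK, Set.mem_ofPred_eq, ContinuousMap.coe_mk]
      refine ⟨by linarith, by linarith, by linarith, by linarith⟩) h₃ (by
      rw [← e₃, j2]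
      congr 1
      apply Subtype.ext
      simp)
  have hcongr : ∀ {z w : KK P}, (z : ℝ × ℝ) = w → R z = R w := fun h => by
    rw [Subtype.ext h]
  constructor
  · rw [i0, i1, i2, i3]
    have k1 := hcongr (z := ⟨((⟨fun t => (P.1 + (t - t₀), P.2 + (t - t₀)), by fun_prop⟩ :
      C(ℝ, ℝ × ℝ)) (t₀ + 1 / 2)), by
        simp only [KK, Set.mem_ofPred_eq, ContinuousMap.coe_mk]
        refine ⟨by linarith, by linarith, by linarith, by linarith⟩⟩)
      (w := ⟨((⟨fun t => (P.1 + 1 / 4 + (t - t₃), P.2 + 1 / 2), by fun_prop⟩ :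
      C(ℝ, ℝ × ℝ)) (t₃ + 1 / 4)), by
        simp only [KK, Set.mem_ofPred_eq, ContinuousMap.coe_mk]
        refine ⟨by linarith, by linarith, by linarith, by linarith⟩⟩) (by
        simp only [ContinuousMap.coe_mk]
        ext
        · simp only; ring
        · simp only; ring)
    have k2 := hcongr (z := ⟨((⟨fun t => (P.1 + (t - t₀), P.2 + (t - t₀)), by fun_prop⟩ :
      C(ℝ, ℝ × ℝ)) t₀), by
        simp only [KK, Set.mem_ofPred_eq, ContinuousMap.coe_mk]
        refine ⟨by linarith, by linarith, by linarith, by linarith⟩⟩)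
      (w := ⟨((⟨fun t => (P.1 + (t - t₁), P.2), by fun_prop⟩ :
      C(ℝ, ℝ × ℝ)) t₁), by
        simp only [KK, Set.mem_ofPred_eq, ContinuousMap.coe_mk]
        refine ⟨by linarith, by linarith, by linarith, by linarith⟩⟩) (by
        simp)
    have k3 := hcongr (z := ⟨((⟨fun t => (P.1 + (t - t₁), P.2), by fun_prop⟩ :
      C(ℝ, ℝ × ℝ)) (t₁ + 1 / 4)), by
        simp only [KK, Set.mem_ofPred_eq, ContinuousMap.coe_mk]
        refine ⟨by linarith, by linarith, by linarith, by linarith⟩⟩)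
      (w := ⟨((⟨fun t => (P.1 + 1 / 4, P.2 + (t - t₂)), by fun_prop⟩ :
      C(ℝ, ℝ × ℝ)) t₂), by
        simp only [KK, Set.mem_ofPred_eq, ContinuousMap.coe_mk]
        refine ⟨by linarith, by linarith, by linarith, by linarith⟩⟩) (by
        simp)
    have k4 := hcongr (z := ⟨((⟨fun t => (P.1 + 1 / 4, P.2 + (t - t₂)), by fun_prop⟩ :
      C(ℝ, ℝ × ℝ)) (t₂ + 1 / 2)), by
        simp only [KK, Set.mem_ofPred_eq, ContinuousMap.coe_mk]
        refine ⟨by linarith, by linarith, by linarith, by linarith⟩⟩)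
      (w := ⟨((⟨fun t => (P.1 + 1 / 4 + (t - t₃), P.2 + 1 / 2), by fun_prop⟩ :
      C(ℝ, ℝ × ℝ)) t₃), by
        simp only [KK, Set.mem_ofPred_eq, ContinuousMap.coe_mk]
        refine ⟨by linarith, by linarith, by linarith, by linarith⟩⟩) (by
        simp)
    rw [k1, k2, k3, k4]
    ring
  · rw [j0, j3]
    congr 1
    apply Subtype.ext
    simp only [ContinuousMap.coe_mk]
    ext
    · simp only; ring
    · simp only; ring

/-! ### trigonometric values -/

theorem sinz0 : Real.sin (2 * Real.pi * 0) = 0 := by simp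
theorem cosz0 : Real.cos (2 * Real.pi * 0) = 1 := by simp
theorem sinz12 : Real.sin (2 * Real.pi * (1 / 2)) = 0 := by
  rw [show 2 * Real.pi * (1 / 2) = Real.pi by ring, Real.sin_pi]
theorem cosz12 : Real.cos (2 * Real.pi * (1 / 2)) = -1 := by
  rw [show 2 * Real.pi * (1 / 2) = Real.pi by ring, Real.cos_pi]
theorem sinz1 : Real.sin (2 * Real.pi * 1) = 0 := by
  rw [mul_one, Real.sin_two_pi]
theorem cosz1 : Real.cos (2 * Real.pi * 1) = 1 := by
  rw [mul_one, Real.cos_two_pi]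
theorem sin_per (t : ℝ) : Real.sin (2 * Real.pi * (t + 1)) = Real.sin (2 * Real.pi * t) := by
  rw [mul_add, mul_one, Real.sin_add_two_pi]
theorem cos_per (t : ℝ) : Real.cos (2 * Real.pi * (t + 1)) = Real.cos (2 * Real.pi * t) := by
  rw [mul_add, mul_one, Real.cos_add_two_pi]

theorem tor_add_one_left (x y : ℝ) : tor (x + 1, y) = tor (x, y) := by
  rw [tor_eq_iff]
  exact ⟨⟨1, by simp⟩, ⟨0, by simp⟩⟩

theorem tor_add_one_right (x y : ℝ) : tor (x, y + 1) = tor (x, y) := by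
  rw [tor_eq_iff]
  exact ⟨⟨0, by simp⟩, ⟨1, by simp⟩⟩

theorem H0_path (t : ℝ) : H0.path t = (t, 1 / 4) := rfl
theorem H1_path (t : ℝ) : H1.path t = (t, 3 / 4) := rfl
theorem V0_path (t : ℝ) : V0.path t = (1 / 4, t) := rfl
theorem V1_path (t : ℝ) : V1.path t = (3 / 4, t) := rfl

theorem H0_arg (t : ℝ) : H0.arg t = -2 * Real.pi * t
    - Real.arctan (Real.sin (2 * Real.pi * t)) - Real.arctan (Real.cos (2 * Real.pi * t)) := rfl
theorem H1_arg (t : ℝ) : H1.arg t = Real.pi + 2 * Real.pi * t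
    + Real.arctan (Real.sin (2 * Real.pi * t)) - Real.arctan (Real.cos (2 * Real.pi * t)) := rfl
theorem V0_arg (t : ℝ) : V0.arg t = Real.pi / 2 + 2 * Real.pi * t
    + Real.arctan (Real.sin (2 * Real.pi * t)) + Real.arctan (Real.cos (2 * Real.pi * t)) := rfl
theorem V1_arg (t : ℝ) : V1.arg t = -(Real.pi / 2) - 2 * Real.pi * t
    - Real.arctan (Real.sin (2 * Real.pi * t)) + Real.arctan (Real.cos (2 * Real.pi * t)) := rfl

/-! ### shifts -/

theorem H0_shift (k : ℤ) (t : ℝ) : H0.lift k (t + 1) = H0.lift (k - 1) t := by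
  refine Line.lift_eq_lift (by rw [H0_path, H0_path, tor_add_one_left]) 0 ?_
  rw [H0_arg, H0_arg, sin_per, cos_per]
  push_cast
  ring

theorem H1_shift (k : ℤ) (t : ℝ) : H1.lift k (t + 1) = H1.lift (k + 1) t := by
  refine Line.lift_eq_lift (by rw [H1_path, H1_path, tor_add_one_left]) 0 ?_
  rw [H1_arg, H1_arg, sin_per, cos_per]
  push_cast
  ring

theorem V0_shift (k : ℤ) (t : ℝ) : V0.lift k (t + 1) = V0.lift (k + 1) t := by
  refine Line.lift_eq_lift (by rw [V0_path, V0_path, tor_add_one_right]) 0 ?_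
  rw [V0_arg, V0_arg, sin_per, cos_per]
  push_cast
  ring

theorem V1_shift (k : ℤ) (t : ℝ) : V1.lift k (t + 1) = V1.lift (k - 1) t := by
  refine Line.lift_eq_lift (by rw [V1_path, V1_path, tor_add_one_right]) 0 ?_
  rw [V1_arg, V1_arg, sin_per, cos_per]
  push_cast
  ring

/-! ### incidences -/

theorem inc_V0_H0 (k : ℤ) : V0.lift k (1 / 4) = H0.lift (k + 1) (1 / 4) := by
  refine Line.lift_eq_lift (by rw [V0_path, H0_path]) 0 ?_
  rw [V0_arg, H0_arg, sin_quarter, cos_quarter, Real.arctan_one, Real.arctan_zero]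
  push_cast
  ring

theorem inc_V0_H1 (k : ℤ) : V0.lift k (3 / 4) = H1.lift k (1 / 4) := by
  refine Line.lift_eq_lift (by rw [V0_path, H1_path]) 0 ?_
  rw [V0_arg, H1_arg, sin_quarter, cos_quarter, sin_three_quarters, cos_three_quarters,
    Real.arctan_neg, Real.arctan_one, Real.arctan_zero]
  push_cast
  ring

theorem inc_V1_H0 (k : ℤ) : V1.lift k (1 / 4) = H0.lift k (3 / 4) := by
  refine Line.lift_eq_lift (by rw [V1_path, H0_path]) 0 ?_
  rw [V1_arg, H0_arg, sin_quarter, cos_quarter, sin_three_quarters, cos_three_quarters,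
    Real.arctan_neg, Real.arctan_one, Real.arctan_zero]
  push_cast
  ring

theorem inc_V1_H1 (k : ℤ) : V1.lift k (3 / 4) = H1.lift (k - 2) (3 / 4) := by
  refine Line.lift_eq_lift (by rw [V1_path, H1_path]) 0 ?_
  rw [V1_arg, H1_arg, sin_three_quarters, cos_three_quarters,
    Real.arctan_neg, Real.arctan_one, Real.arctan_zero]
  push_cast
  ring

/-! ### values of `f` -/

/-- `f` in polar coordinates -/
theorem ff_pt {x x' : 𝕋 × 𝕋} {θ θ' : ℝ} {hne : FF x ≠ 0} {h : FF x = (‖FF x‖ : ℂ) * exp (θ * I)}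
    {hne' : FF x' ≠ 0} {h' : FF x' = (‖FF x'‖ : ℂ) * exp (θ' * I)} (hx : x' = (x.1 + x.2, x.1))
    {r ψ : ℝ} (hr : 0 < r) (hG : GG x = (r : ℂ) * exp ((ψ / 4 : ℝ) * I)) (n : ℤ)
    (hθ : ψ - θ = θ' + 8 * Real.pi * n) : ff (pt x θ hne h) = pt x' θ' hne' h' := by
  refine Surf.ext (by rw [ff_base, pt_base, pt_base, hx]) ?_
  rw [ff_root, pt_base, pt_root, pt_root, hG]
  have hA : 0 < ‖FF x‖ ^ ((4 : ℕ) : ℝ)⁻¹ := Real.rpow_pos_of_pos (norm_pos_iff.2 hne) _
  have hB : 0 < ‖FF x'‖ ^ ((4 : ℕ) : ℝ)⁻¹ := Real.rpow_pos_of_pos (norm_pos_iff.2 hne') _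
  have hA4 : (‖FF x‖ ^ ((4 : ℕ) : ℝ)⁻¹) ^ 4 = ‖FF x‖ :=
    Real.rpow_inv_natCast_pow (norm_nonneg _) (by norm_num)
  have hB4 : (‖FF x'‖ ^ ((4 : ℕ) : ℝ)⁻¹) ^ 4 = ‖FF x'‖ :=
    Real.rpow_inv_natCast_pow (norm_nonneg _) (by norm_num)
  set A := ‖FF x‖ ^ ((4 : ℕ) : ℝ)⁻¹ with hAd
  set B := ‖FF x'‖ ^ ((4 : ℕ) : ℝ)⁻¹ with hBd
  have hrAB : r = A * B := by
    have h1 : ‖GG x‖ ^ 4 = ‖FF x‖ * ‖FF x'‖ := by
      rw [← norm_pow, GG_pow, norm_mul, hx]
    rw [hG, norm_mul, Complex.norm_exp_ofReal_mul_I, mul_one, Complex.norm_real, Real.norm_eq_abs,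
      abs_of_pos hr, ← hA4, ← hB4, ← mul_pow] at h1
    exact (pow_left_inj₀ hr.le (by positivity) (by norm_num)).mp h1
  rw [hrAB]
  have hexp : exp ((ψ / 4 : ℝ) * I) = exp ((θ' / 4 : ℝ) * I) * exp ((θ / 4 : ℝ) * I) := by
    rw [← Complex.exp_add, exp_eq_exp_iff_exists_int]
    refine ⟨n, ?_⟩
    have : ψ = θ' + θ + 8 * Real.pi * n := by linarith
    rw [this]
    push_cast
    ring
  rw [hexp, div_eq_iff (mul_ne_zero (by exact_mod_cast hA.ne') (exp_ne_zero _))]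
  push_cast
  ring

theorem one_cpow_quarter : (1 : ℂ) ^ ((4 : ℕ) : ℂ)⁻¹ = 1 := Complex.one_cpow _

theorem ofReal_cpow_quarter {q : ℝ} (hq : 0 < q) :
    (q : ℂ) ^ ((4 : ℕ) : ℂ)⁻¹ = ((q ^ ((4 : ℕ) : ℝ)⁻¹ : ℝ) : ℂ) := by
  rw [Complex.ofReal_cpow hq.le]
  push_cast
  rfl

theorem two_I_cpow_quarter : (2 * I : ℂ) ^ ((4 : ℕ) : ℂ)⁻¹ =
    (((2 : ℝ) ^ ((4 : ℕ) : ℝ)⁻¹ : ℝ) : ℂ) * exp (((Real.pi / 2) / 4 : ℝ) * I) := by
  have h2 : (2 * I : ℂ) ≠ 0 := mul_ne_zero two_ne_zero I_ne_zero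
  rw [Complex.cpow_def_of_ne_zero h2]
  have hlog : Complex.log (2 * I) = Real.log 2 + Real.pi / 2 * I := by
    have := Complex.log_ofReal_mul (r := 2) (by norm_num) I_ne_zero
    rw [Complex.log_I] at this
    push_cast at this ⊢
    exact this
  rw [hlog, add_mul, Complex.exp_add, Real.rpow_def_of_pos (by norm_num)]
  push_cast
  congr 2
  ring

theorem neg_two_I_cpow_quarter : (-(2 * I) : ℂ) ^ ((4 : ℕ) : ℂ)⁻¹ =
    (((2 : ℝ) ^ ((4 : ℕ) : ℝ)⁻¹ : ℝ) : ℂ) * exp (((-(Real.pi / 2)) / 4 : ℝ) * I) := by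
  have h2 : (-(2 * I) : ℂ) ≠ 0 := neg_ne_zero.mpr (mul_ne_zero two_ne_zero I_ne_zero)
  rw [Complex.cpow_def_of_ne_zero h2]
  have hlog : Complex.log (-(2 * I)) = Real.log 2 + -(Real.pi / 2) * I := by
    have := Complex.log_ofReal_mul (r := 2) (x := -I) (by norm_num) (neg_ne_zero.mpr I_ne_zero)
    rw [Complex.log_neg_I] at this
    push_cast at this ⊢
    rw [← this]
    congr 1
    ring
  rw [hlog, add_mul, Complex.exp_add, Real.rpow_def_of_pos (by norm_num)]
  push_cast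
  congr 2
  ring

theorem sn_quarter' : sn ((1 / 4 : ℝ) : 𝕋) = 1 := by rw [sn_coe, sin_quarter]
theorem cn_quarter' : cn ((1 / 4 : ℝ) : 𝕋) = 0 := by rw [cn_coe, cos_quarter]
theorem sn_three_quarters' : sn ((3 / 4 : ℝ) : 𝕋) = -1 := by rw [sn_coe, sin_three_quarters]
theorem cn_three_quarters' : cn ((3 / 4 : ℝ) : 𝕋) = 0 := by rw [cn_coe, cos_three_quarters]

theorem tor_fst (x y : ℝ) : (tor (x, y)).1 = (x : 𝕋) := rfl
theorem tor_sum (x y : ℝ) : (tor (x, y)).1 + (tor (x, y)).2 = ((x + y : ℝ) : 𝕋) := by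
  unfold tor
  rw [AddCircle.coe_add]

theorem GG_V0 : GG (tor (1 / 4, 0)) = (((2 : ℝ) ^ ((4 : ℕ) : ℝ)⁻¹ : ℝ) : ℂ) *
    exp ((0 / 4 : ℝ) * I) := by
  have e0 : Q0 (tor (1 / 4, 0)) = 2 := by
    unfold Q0
    rw [tor_sum, tor_fst, add_zero, sn_quarter']
    norm_num
  have e1 : Q1 (tor (1 / 4, 0)) = 1 := by
    unfold Q1
    rw [tor_sum, tor_fst, add_zero, sn_quarter', cn_quarter']
    simp [pr]
  have e2 : Q2 (tor (1 / 4, 0)) = 1 := by
    unfold Q2
    rw [tor_sum, tor_fst, add_zero, sn_quarter', cn_quarter']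
    simp [pr]
  unfold GG
  rw [e0, e1, e2, ofReal_cpow_quarter (by norm_num), one_cpow_quarter]
  simp

theorem GG_V1 : GG (tor (3 / 4, 0)) = (((2 : ℝ) ^ ((4 : ℕ) : ℝ)⁻¹ : ℝ) : ℂ) *
    exp ((0 / 4 : ℝ) * I) := by
  have e0 : Q0 (tor (3 / 4, 0)) = 2 := by
    unfold Q0
    rw [tor_sum, tor_fst, add_zero, sn_three_quarters']
    norm_num
  have e1 : Q1 (tor (3 / 4, 0)) = 1 := by
    unfold Q1
    rw [tor_sum, tor_fst, add_zero, sn_three_quarters', cn_three_quarters']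
    simp [pr]
  have e2 : Q2 (tor (3 / 4, 0)) = 1 := by
    unfold Q2
    rw [tor_sum, tor_fst, add_zero, sn_three_quarters', cn_three_quarters']
    simp [pr]
  unfold GG
  rw [e0, e1, e2, ofReal_cpow_quarter (by norm_num), one_cpow_quarter]
  simp

theorem GG_H0 : GG (tor (1 / 4, 1 / 4)) = (((2 : ℝ) ^ ((4 : ℕ) : ℝ)⁻¹ : ℝ) : ℂ) *
    exp (((Real.pi / 2) / 4 : ℝ) * I) := by
  have hs : ((1 / 4 : ℝ) + 1 / 4) = 1 / 2 := by norm_num
  have e0 : Q0 (tor (1 / 4, 1 / 4)) = 1 := by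
    unfold Q0
    rw [tor_sum, tor_fst, hs, sn_quarter', sn_coe, sinz12]
    norm_num
  have e1 : Q1 (tor (1 / 4, 1 / 4)) = 1 := by
    unfold Q1
    rw [tor_sum, tor_fst, hs, sn_quarter', cn_quarter']
    simp [pr]
  have e2 : Q2 (tor (1 / 4, 1 / 4)) = 2 * I := by
    unfold Q2
    rw [tor_sum, tor_fst, hs, sn_quarter', sn_coe, cn_coe, sinz12, cosz12]
    simp [pr]
  unfold GG
  rw [e0, e1, e2, one_cpow_quarter, two_I_cpow_quarter, Complex.ofReal_one, one_cpow_quarter]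
  ring

theorem GG_H1 : GG (tor (1 / 4, 3 / 4)) = (((2 : ℝ) ^ ((4 : ℕ) : ℝ)⁻¹ : ℝ) : ℂ) *
    exp (((-(Real.pi / 2)) / 4 : ℝ) * I) := by
  have hs : ((1 / 4 : ℝ) + 3 / 4) = 1 := by norm_num
  have e0 : Q0 (tor (1 / 4, 3 / 4)) = 1 := by
    unfold Q0
    rw [tor_sum, tor_fst, hs, sn_quarter', sn_coe, sinz1]
    norm_num
  have e1 : Q1 (tor (1 / 4, 3 / 4)) = 1 := by
    unfold Q1
    rw [tor_sum, tor_fst, hs, sn_quarter', cn_quarter']
    simp [pr]
  have e2 : Q2 (tor (1 / 4, 3 / 4)) = -(2 * I) := by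
    unfold Q2
    rw [tor_sum, tor_fst, hs, sn_quarter', sn_coe, cn_coe, sinz1, cosz1]
    simp [pr]
  unfold GG
  rw [e0, e1, e2, one_cpow_quarter, neg_two_I_cpow_quarter, Complex.ofReal_one, one_cpow_quarter]
  ring

theorem two_rpow_pos : (0 : ℝ) < (2 : ℝ) ^ ((4 : ℕ) : ℝ)⁻¹ := by positivity

theorem tor_next (x y : ℝ) : ((tor (x, y)).1 + (tor (x, y)).2, (tor (x, y)).1) = tor (x + y, x) := by
  unfold tor
  simp only
  rw [AddCircle.coe_add]

theorem f_H0_quarter (k : ℤ) : ff (H0.lift k (1 / 4)) = H0.lift (1 - k) (1 / 2) := by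
  rw [Line.lift_apply, Line.lift_apply]
  refine ff_pt ?_ two_rpow_pos (ψ := Real.pi / 2) ?_ 0 ?_
  · rw [H0_path, H0_path, tor_next]
    norm_num
  · rw [H0_path]; exact GG_H0
  · rw [H0_arg, H0_arg, sin_quarter, cos_quarter, sinz12, cosz12, Real.arctan_neg, Real.arctan_one,
      Real.arctan_zero]
    push_cast
    ring

theorem f_H1_quarter (k : ℤ) : ff (H1.lift k (1 / 4)) = H0.lift (-k) 1 := by
  rw [Line.lift_apply, Line.lift_apply]
  refine ff_pt ?_ two_rpow_pos (ψ := -(Real.pi / 2)) ?_ 0 ?_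
  · rw [H0_path, H1_path, tor_next]
    norm_num
  · rw [H1_path]; exact GG_H1
  · rw [H0_arg, H1_arg, sin_quarter, cos_quarter, sinz1, cosz1, Real.arctan_one,
      Real.arctan_zero]
    push_cast
    ring

theorem f_V0_zero (k : ℤ) : ff (V0.lift k 0) = H0.lift (-k) (1 / 4) := by
  rw [Line.lift_apply, Line.lift_apply]
  refine ff_pt ?_ two_rpow_pos (ψ := 0) ?_ 0 ?_
  · rw [H0_path, V0_path, tor_next]
    norm_num
  · rw [V0_path]; exact GG_V0
  · rw [H0_arg, V0_arg, sin_quarter, cos_quarter, sinz0, cosz0, Real.arctan_one,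
      Real.arctan_zero]
    push_cast
    ring

theorem f_V1_zero (k : ℤ) : ff (V1.lift k 0) = H1.lift (-1 - k) (3 / 4) := by
  rw [Line.lift_apply, Line.lift_apply]
  refine ff_pt ?_ two_rpow_pos (ψ := 0) ?_ 0 ?_
  · rw [H1_path, V1_path, tor_next]
    norm_num
  · rw [V1_path]; exact GG_V1
  · rw [H1_arg, V1_arg, sin_three_quarters, cos_three_quarters, sinz0, cosz0, Real.arctan_neg,
      Real.arctan_one, Real.arctan_zero]
    push_cast
    ring

/-! ### the vertical lines -/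

theorem ff_V0 (k : ℤ) (t : ℝ) : ff (V0.lift k t) = H0.lift (-k) (t + 1 / 4) := by
  have := Surf.lift_unique (ffc.comp (V0.lift k))
    ((H0.lift (-k)).comp ⟨fun t => t + 1 / 4, by fun_prop⟩) (by
      intro y
      change (ff (V0.lift k y)).base = (H0.lift (-k) (y + 1 / 4)).base
      rw [ff_base, Line.base_lift, Line.base_lift, V0_path, H0_path, tor_next, add_comm]) (y₀ := 0)
    (by
      change ff (V0.lift k 0) = H0.lift (-k) (0 + 1 / 4)
      rw [f_V0_zero, zero_add]) t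
  exact this

theorem ff_V1 (k : ℤ) (t : ℝ) : ff (V1.lift k t) = H1.lift (-1 - k) (t + 3 / 4) := by
  have := Surf.lift_unique (ffc.comp (V1.lift k))
    ((H1.lift (-1 - k)).comp ⟨fun t => t + 3 / 4, by fun_prop⟩) (by
      intro y
      change (ff (V1.lift k y)).base = (H1.lift (-1 - k) (y + 3 / 4)).base
      rw [ff_base, Line.base_lift, Line.base_lift, V1_path, H1_path, tor_next, add_comm]) (y₀ := 0)
    (by
      change ff (V1.lift k 0) = H1.lift (-1 - k) (0 + 3 / 4)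
      rw [f_V1_zero, zero_add]) t
  exact this

theorem edge_V0_f (k : ℤ) (a b : ℝ) (u : C(Surf, 𝕋)) :
    edge V0 k a b (u.comp ffc) = edge H0 (-k) (a + 1 / 4) (b + 1 / 4) u := by
  unfold edge
  have h1 : (u.comp ffc).comp (V0.lift k) =
      (u.comp (H0.lift (-k))).comp ⟨fun t => t + 1 / 4, by fun_prop⟩ := by
    ext t
    change u (ff (V0.lift k t)) = u (H0.lift (-k) (t + 1 / 4))
    rw [ff_V0]
  rw [h1, inc_comp]
  rfl

theorem edge_V1_f (k : ℤ) (a b : ℝ) (u : C(Surf, 𝕋)) :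
    edge V1 k a b (u.comp ffc) = edge H1 (-1 - k) (a + 3 / 4) (b + 3 / 4) u := by
  unfold edge
  have h1 : (u.comp ffc).comp (V1.lift k) =
      (u.comp (H1.lift (-1 - k))).comp ⟨fun t => t + 3 / 4, by fun_prop⟩ := by
    ext t
    change u (ff (V1.lift k t)) = u (H1.lift (-1 - k) (t + 3 / 4))
    rw [ff_V1]
  rw [h1, inc_comp]
  rfl

/-! ### the horizontal lines -/

theorem edge_H0_f_aux (k : ℤ) (u : C(Surf, 𝕋)) :
    edge H0 k (1 / 4) (3 / 4) (u.comp ffc) =
      edge H0 (1 - k) (1 / 2) (3 / 4) u + edge V1 (1 - k) (1 / 4) (3 / 4) u +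
        edge H1 (-1 - k) (3 / 4) 1 u ∧ ff (H0.lift k (3 / 4)) = H1.lift (-1 - k) 1 := by
  have h := diamond (P := (1 / 2, 1 / 4)) ⟨1, 0, by norm_num, by norm_num⟩ u
    (ffc.comp (H0.lift k)) (H0.lift (1 - k)) (V1.lift (1 - k)) (H1.lift (-1 - k))
    (1 / 4) (1 / 2) (1 / 4) (3 / 4) (by
      intro t _
      change (ff (H0.lift k t)).base = _
      rw [ff_base, Line.base_lift, H0_path, tor_next]
      congr 1
      ext
      · simp only; ring
      · simp only; ring) (by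
      intro t _
      rw [Line.base_lift, H0_path]
      congr 1
      ext
      · simp only; ring
      · rfl) (by
      intro t _
      rw [Line.base_lift, V1_path]
      congr 1
      ext
      · simp only; norm_num
      · simp only; ring) (by
      intro t _
      rw [Line.base_lift, H1_path]
      congr 1
      ext
      · simp only; ring
      · simp only; norm_num) (f_H0_quarter k) (by
      rw [inc_V1_H0]
      congr 1
      norm_num) (by
      rw [show (1 / 4 : ℝ) + 1 / 2 = 3 / 4 by norm_num, inc_V1_H1]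
      congr 2
      ring)
  rw [show (1 / 4 : ℝ) + 1 / 2 = 3 / 4 by norm_num, show (1 / 2 : ℝ) + 1 / 4 = 3 / 4 by norm_num,
    show (3 / 4 : ℝ) + 1 / 4 = 1 by norm_num] at h
  exact h

theorem edge_H0_f (k : ℤ) (u : C(Surf, 𝕋)) :
    edge H0 k (1 / 4) (3 / 4) (u.comp ffc) =
      edge H0 (1 - k) (1 / 2) (3 / 4) u + edge V1 (1 - k) (1 / 4) (3 / 4) u +
        edge H1 (-1 - k) (3 / 4) 1 u := (edge_H0_f_aux k u).1

theorem edge_H0_f' (k : ℤ) (u : C(Surf, 𝕋)) :
    edge H0 k (3 / 4) (5 / 4) (u.comp ffc) =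
      edge H1 (-1 - k) 1 (5 / 4) u + edge V0 (-k) (3 / 4) (5 / 4) u +
        edge H0 (2 - k) (1 / 4) (1 / 2) u := by
  have h := (diamond (P := (1, 3 / 4)) ⟨2, 1, by norm_num, by norm_num⟩ u
    (ffc.comp (H0.lift k)) (H1.lift (-1 - k)) (V0.lift (-k)) (H0.lift (2 - k))
    (3 / 4) 1 (3 / 4) (1 / 4) (by
      intro t _
      change (ff (H0.lift k t)).base = _
      rw [ff_base, Line.base_lift, H0_path, tor_next]
      congr 1
      ext
      · simp only; ring
      · simp only; ring) (by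
      intro t _
      rw [Line.base_lift, H1_path]
      congr 1
      ext
      · simp only; ring
      · rfl) (by
      intro t _
      rw [Line.base_lift, V0_path, ← tor_add_one_left]
      congr 1
      ext
      · simp only; norm_num
      · simp only; ring) (by
      intro t _
      rw [Line.base_lift, H0_path, ← tor_add_one_left, ← tor_add_one_right]
      congr 1
      ext
      · simp only; ring
      · simp only; norm_num) (edge_H0_f_aux k u).2 (by
      rw [show (1 : ℝ) + 1 / 4 = 1 / 4 + 1 by norm_num, H1_shift, inc_V0_H1]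
      congr 2
      ring) (by
      rw [show (3 / 4 : ℝ) + 1 / 2 = 1 / 4 + 1 by norm_num, V0_shift, inc_V0_H0]
      congr 2
      ring)).1
  rw [show (3 / 4 : ℝ) + 1 / 2 = 5 / 4 by norm_num, show (1 : ℝ) + 1 / 4 = 5 / 4 by norm_num,
    show (1 / 4 : ℝ) + 1 / 4 = 1 / 2 by norm_num] at h
  exact h

theorem edge_H1_f_aux (k : ℤ) (u : C(Surf, 𝕋)) :
    edge H1 k (1 / 4) (3 / 4) (u.comp ffc) =
      edge H0 (-k) 1 (5 / 4) u + edge V0 (-k - 2) (1 / 4) (3 / 4) u +
        edge H1 (-k - 2) (1 / 4) (1 / 2) u ∧ ff (H1.lift k (3 / 4)) = H1.lift (-k - 2) (1 / 2) := by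
  have h := diamond (P := (1, 1 / 4)) ⟨2, 0, by norm_num, by norm_num⟩ u
    (ffc.comp (H1.lift k)) (H0.lift (-k)) (V0.lift (-k - 2)) (H1.lift (-k - 2))
    (1 / 4) 1 (1 / 4) (1 / 4) (by
      intro t _
      change (ff (H1.lift k t)).base = _
      rw [ff_base, Line.base_lift, H1_path, tor_next]
      congr 1
      ext
      · simp only; ring
      · simp only; ring) (by
      intro t _
      rw [Line.base_lift, H0_path]
      congr 1
      ext
      · simp only; ring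
      · rfl) (by
      intro t _
      rw [Line.base_lift, V0_path, ← tor_add_one_left]
      congr 1
      ext
      · simp only; norm_num
      · simp only; ring) (by
      intro t _
      rw [Line.base_lift, H1_path, ← tor_add_one_left]
      congr 1
      ext
      · simp only; ring
      · simp only; norm_num) (f_H1_quarter k) (by
      rw [show (1 : ℝ) + 1 / 4 = 1 / 4 + 1 by norm_num, H0_shift, inc_V0_H0]
      congr 2
      ring) (by
      rw [show (1 / 4 : ℝ) + 1 / 2 = 3 / 4 by norm_num, inc_V0_H1])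
  rw [show (1 / 4 : ℝ) + 1 / 2 = 3 / 4 by norm_num, show (1 : ℝ) + 1 / 4 = 5 / 4 by norm_num,
    show (1 / 4 : ℝ) + 1 / 4 = 1 / 2 by norm_num] at h
  exact h

theorem edge_H1_f (k : ℤ) (u : C(Surf, 𝕋)) :
    edge H1 k (1 / 4) (3 / 4) (u.comp ffc) =
      edge H0 (-k) 1 (5 / 4) u + edge V0 (-k - 2) (1 / 4) (3 / 4) u +
        edge H1 (-k - 2) (1 / 4) (1 / 2) u := (edge_H1_f_aux k u).1

theorem edge_H1_f' (k : ℤ) (u : C(Surf, 𝕋)) :
    edge H1 k (3 / 4) (5 / 4) (u.comp ffc) =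
      edge H1 (-k - 2) (1 / 2) (3 / 4) u + edge V1 (-k) (3 / 4) (5 / 4) u +
        edge H0 (-k - 1) (3 / 4) 1 u := by
  have h := (diamond (P := (3 / 2, 3 / 4)) ⟨3, 1, by norm_num, by norm_num⟩ u
    (ffc.comp (H1.lift k)) (H1.lift (-k - 2)) (V1.lift (-k)) (H0.lift (-k - 1))
    (3 / 4) (1 / 2) (3 / 4) (3 / 4) (by
      intro t _
      change (ff (H1.lift k t)).base = _
      rw [ff_base, Line.base_lift, H1_path, tor_next]
      congr 1
      ext
      · simp only; ring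
      · simp only; ring) (by
      intro t _
      rw [Line.base_lift, H1_path, ← tor_add_one_left]
      congr 1
      ext
      · simp only; ring
      · rfl) (by
      intro t _
      rw [Line.base_lift, V1_path, ← tor_add_one_left]
      congr 1
      ext
      · simp only; norm_num
      · simp only; ring) (by
      intro t _
      rw [Line.base_lift, H0_path, ← tor_add_one_left, ← tor_add_one_right]
      congr 1
      ext
      · simp only; ring
      · simp only; norm_num) (edge_H1_f_aux k u).2 (by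
      rw [show (1 / 2 : ℝ) + 1 / 4 = 3 / 4 by norm_num, inc_V1_H1]) (by
      rw [show (3 / 4 : ℝ) + 1 / 2 = 1 / 4 + 1 by norm_num, V1_shift, inc_V1_H0])).1
  rw [show (3 / 4 : ℝ) + 1 / 2 = 5 / 4 by norm_num, show (1 / 2 : ℝ) + 1 / 4 = 3 / 4 by norm_num,
    show (3 / 4 : ℝ) + 1 / 4 = 1 by norm_num] at h
  exact h

end Pool.Agent.Hhelper31.Penner
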