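import Pool.Agent.Hhelper31.Penner.Lift

/-!
# Annuli: gluing, dual functions, Picard-Lefschetz formula
-/

namespace Pool.Agent.Hhelper31.Penner

open Set Filter Topology

set_option linter.unusedSectionVars false

variable {S : Type} [TopologicalSpace S] {𝒜 : OrientedAtlas S}

/-! ### invertible derivatives -/

/-- a continuous linear endomorphism of the plane with non-zero determinant, as an equivalence -/
noncomputable def clmEquiv (P : (ℝ × ℝ) →L[ℝ] (ℝ × ℝ)) (h : P.det ≠ 0) : (ℝ × ℝ) ≃L[ℝ] (ℝ × ℝ) :=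
  (LinearEquiv.ofIsUnitDet (f := (P : (ℝ × ℝ) →ₗ[ℝ] (ℝ × ℝ)))
    (v := Module.Free.chooseBasis ℝ (ℝ × ℝ)) (v' := Module.Free.chooseBasis ℝ (ℝ × ℝ)) (by
      rw [LinearMap.det_toMatrix]
      exact isUnit_iff_ne_zero.mpr h)).toContinuousLinearEquiv

theorem coe_clmEquiv (P : (ℝ × ℝ) →L[ℝ] (ℝ × ℝ)) (h : P.det ≠ 0) :
    ((clmEquiv P h : (ℝ × ℝ) ≃L[ℝ] (ℝ × ℝ)) : (ℝ × ℝ) →L[ℝ] (ℝ × ℝ)) = P := by
  ext <;> rfl

namespace Annulus

variable (α : Annulus 𝒜)

theorem map_nhds (p : ℝ × ℝ) : map α.toFun (𝓝 p) = 𝓝 (α.toFun p) := by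
  obtain ⟨e, he, hs⟩ := 𝒜.covers (α.toFun p)
  have hdet := α.oriented e he p hs
  have hsm := α.smooth e he p hs
  have hstr : HasStrictFDerivAt (fun p => e (α.toFun p))
      ((clmEquiv _ hdet.ne' : (ℝ × ℝ) ≃L[ℝ] (ℝ × ℝ)) : (ℝ × ℝ) →L[ℝ] (ℝ × ℝ)) p := by
    rw [coe_clmEquiv]
    exact hsm.hasStrictFDerivAt (by simp)
  have h1 : map (fun p => e (α.toFun p)) (𝓝 p) = 𝓝 (e (α.toFun p)) :=
    hstr.map_nhds_eq_of_equiv
  have h2 : map e.symm (𝓝 (e (α.toFun p))) = 𝓝 (α.toFun p) := by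
    have := e.symm.map_nhds_eq (x := e (α.toFun p)) (e.map_source hs)
    rwa [e.left_inv hs] at this
  rw [← h1, Filter.map_map] at h2
  rw [← h2]
  apply Filter.map_congr
  have h3 : ∀ᶠ q in 𝓝 p, α.toFun q ∈ e.source :=
    α.continuous_toFun.continuousAt.eventually (e.open_source.mem_nhds hs)
  filter_upwards [h3] with q hq
  simp [e.left_inv hq]

theorem isOpenMap : IsOpenMap α.toFun :=
  IsOpenMap.of_nhds_le fun p => (α.map_nhds p).ge

theorem add_int (θ t : ℝ) (n : ℤ) : α.toFun (θ + n, t) = α.toFun (θ, t) := by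
  rw [α.eq_iff]
  exact ⟨⟨n, by simp⟩, rfl⟩

theorem periodic_int {Y : Type*} {f : ℝ × ℝ → Y} (h : ∀ θ t, f (θ + 1, t) = f (θ, t)) (θ t : ℝ)
    (n : ℤ) : f (θ + n, t) = f (θ, t) := by
  have hp : Function.Periodic (fun θ => f (θ, t)) 1 := fun θ => h θ t
  have := hp.int_mul n θ
  simpa using this

/-- the closed sub-annulus -/
theorem isCompact_slab (a b : ℝ) : IsCompact (α.toFun '' (Icc (0:ℝ) 1 ×ˢ Icc a b)) :=
  (isCompact_Icc.prod isCompact_Icc).image α.continuous_toFun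

theorem mem_slab {a b θ t : ℝ} (ht : t ∈ Icc a b) :
    α.toFun (θ, t) ∈ α.toFun '' (Icc (0:ℝ) 1 ×ˢ Icc a b) := by
  refine ⟨(Int.fract θ, t), ⟨⟨Int.fract_nonneg θ, (Int.fract_lt_one θ).le⟩, ht⟩, ?_⟩
  rw [α.eq_iff]
  refine ⟨⟨-⌊θ⌋, ?_⟩, rfl⟩
  simp only [Int.fract]
  push_cast
  ring

/-- Gluing a periodic function on the annulus with a function on the surface. -/
theorem glue [T2Space S] {Y : Type*} [TopologicalSpace Y] (f₀ : C(ℝ × ℝ, Y))
    (hper : ∀ θ t, f₀ (θ + 1, t) = f₀ (θ, t)) (f₁ : C(S, Y))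
    (h : ∀ θ t, t ∉ Icc (0:ℝ) 1 → f₀ (θ, t) = f₁ (α.toFun (θ, t))) :
    ∃ f : C(S, Y), (∀ p, f (α.toFun p) = f₀ p) ∧ ∀ x, x ∉ range α.toFun → f x = f₁ x := by
  classical
  set f : S → Y := fun x => if hx : x ∈ range α.toFun then f₀ hx.choose else f₁ x with hf
  have hfα : ∀ p, f (α.toFun p) = f₀ p := by
    intro p
    have hx : α.toFun p ∈ range α.toFun := ⟨p, rfl⟩
    have h1 : f (α.toFun p) = f₀ hx.choose := by simp only [hf]; rw [dif_pos hx]
    rw [h1]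
    obtain ⟨⟨n, hn⟩, h2⟩ := (α.eq_iff _ _).mp hx.choose_spec
    have h3 : hx.choose = (p.1 + n, p.2) := by
      ext
      · simp only; linarith
      · exact h2
    rw [h3]
    exact periodic_int hper p.1 p.2 n
  have hfn : ∀ x, x ∉ range α.toFun → f x = f₁ x := by
    intro x hx
    simp only [hf]
    rw [dif_neg hx]
  refine ⟨⟨f, ?_⟩, hfα, hfn⟩
  rw [continuous_iff_continuousAt]
  intro x
  by_cases hx : x ∈ range α.toFun
  · obtain ⟨p, rfl⟩ := hx
    rw [ContinuousAt, ← α.map_nhds, tendsto_map'_iff, hfα]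
    have : f ∘ α.toFun = f₀ := by
      funext q
      exact hfα q
    rw [this]
    exact f₀.continuous.continuousAt
  · have hC : IsClosed (α.toFun '' (Icc (0:ℝ) 1 ×ˢ Icc (0:ℝ) 1)) := (α.isCompact_slab 0 1).isClosed
    have hxC : x ∈ (α.toFun '' (Icc (0:ℝ) 1 ×ˢ Icc (0:ℝ) 1))ᶜ := by
      rintro ⟨q, -, hq⟩
      exact hx ⟨q, hq⟩
    have hev : ∀ᶠ y in 𝓝 x, f y = f₁ y := by
      filter_upwards [hC.isOpen_compl.mem_nhds hxC] with y hy
      by_cases hy' : y ∈ range α.toFun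
      · obtain ⟨⟨θ, t⟩, rfl⟩ := hy'
        rw [hfα]
        apply h
        intro ht
        exact hy (α.mem_slab ht)
      · exact hfn y hy'
    rw [ContinuousAt, hfn x hx]
    exact (f₁.continuous.tendsto x).congr' (hev.mono fun y hy => hy.symm)

end Annulus

variable [T2Space S]

/-- the function dual to `α` with profile `c`. -/
theorem exists_dual_profile (α : Annulus 𝒜) (c : C(ℝ, ℝ)) (h0 : ∀ t ≤ 0, c t = 0)
    (h1 : ∀ t, 1 ≤ t → c t = 1) : ∃ w : C(S, 𝕋), (∀ θ t : ℝ, w (α.toFun (θ, t)) = ((c t : ℝ) : 𝕋)) ∧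
      ∀ x, x ∉ range α.toFun → w x = 0 := by
  obtain ⟨f, hf, hf'⟩ := α.glue (expo (c.comp ContinuousMap.snd)) (fun θ t => rfl) (0 : C(S, 𝕋)) (by
    intro θ t ht
    rw [mem_Icc, not_and_or, not_le, not_le] at ht
    rcases ht with ht | ht
    · simp [h0 t ht.le]
    · simp [h1 t ht.le])
  exact ⟨f, fun θ t => hf (θ, t), fun x hx => by rw [hf' x hx]; rfl⟩

/-- the standard profile -/
noncomputable def clampC : C(ℝ, ℝ) := ⟨fun t => max 0 (min 1 t), by fun_prop⟩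

theorem clampC_apply (t : ℝ) : clampC t = max 0 (min 1 t) := rfl

theorem clampC_of_nonpos {t : ℝ} (ht : t ≤ 0) : clampC t = 0 := by
  rw [clampC_apply]
  exact max_eq_left (le_trans (min_le_right _ _) ht)

theorem clampC_of_one_le {t : ℝ} (ht : 1 ≤ t) : clampC t = 1 := by
  rw [clampC_apply, min_eq_left ht]
  norm_num

theorem exists_dual (α : Annulus 𝒜) : ∃ w : C(S, 𝕋), IsDual α w :=
  exists_dual_profile α clampC (fun _ => clampC_of_nonpos) (fun _ => clampC_of_one_le)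

/-- changing the profile changes the dual function by a function which has a real lift -/
theorem dual_sub_profile (α : Annulus 𝒜) (c c' : C(ℝ, ℝ)) (h0 : ∀ t ≤ 0, c t = 0)
    (h1 : ∀ t, 1 ≤ t → c t = 1) (h0' : ∀ t ≤ 0, c' t = 0) (h1' : ∀ t, 1 ≤ t → c' t = 1)
    (w w' : C(S, 𝕋)) (hw : ∀ θ t : ℝ, w (α.toFun (θ, t)) = ((c t : ℝ) : 𝕋))
    (hwn : ∀ x, x ∉ range α.toFun → w x = 0)
    (hw' : ∀ θ t : ℝ, w' (α.toFun (θ, t)) = ((c' t : ℝ) : 𝕋))
    (hwn' : ∀ x, x ∉ range α.toFun → w' x = 0) : ∃ k : C(S, ℝ), w = w' + expo k := by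
  obtain ⟨k, hk, hk'⟩ := α.glue ((c - c').comp ContinuousMap.snd) (fun θ t => rfl) (0 : C(S, ℝ)) (by
    intro θ t ht
    rw [mem_Icc, not_and_or, not_le, not_le] at ht
    rcases ht with ht | ht
    · simp [h0 t ht.le, h0' t ht.le]
    · simp [h1 t ht.le, h1' t ht.le])
  refine ⟨k, ?_⟩
  ext x
  by_cases hx : x ∈ range α.toFun
  · obtain ⟨⟨θ, t⟩, rfl⟩ := hx
    rw [ContinuousMap.add_apply, hw, hw', expo_apply, hk, ← AddCircle.coe_add]
    congr 1
    simp
  · rw [ContinuousMap.add_apply, hwn x hx, hwn' x hx, expo_apply, hk' x hx]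
    simp

theorem fn_expo (ξ : Fn S) (h : C(S, ℝ)) : ξ.1 (expo h) = 0 := ξ.2 h

/-- the increment of the lift around an annulus -/
theorem exists_lift_annulus (α : Annulus 𝒜) (u : C(S, 𝕋)) : ∃ (X : C(ℝ × ℝ, ℝ)) (d : ℤ),
    (∀ p, ((X p : ℝ) : 𝕋) = u (α.toFun p)) ∧ (∀ θ t, X (θ + 1, t) = X (θ, t) + d) ∧
      (degFn α).1 u = d := by
  obtain ⟨X, hX⟩ := exists_lift (u.comp ⟨α.toFun, α.continuous_toFun⟩)
  have hX' : ∀ p, ((X p : ℝ) : 𝕋) = u (α.toFun p) := hX
  set G : C(ℝ × ℝ, ℝ) := X.comp ⟨fun p => (p.1 + 1, p.2), by fun_prop⟩ - X with hG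
  have hGv : ∀ p : ℝ × ℝ, G p = X (p.1 + 1, p.2) - X p := fun p => rfl
  have hGint : ∀ p, ∃ n : ℤ, G p = n := by
    intro p
    have h1 : ((X (p.1 + 1, p.2) : ℝ) : 𝕋) = ((X p : ℝ) : 𝕋) := by
      rw [hX', hX']
      have := α.add_int p.1 p.2 1
      rw [Int.cast_one] at this
      rw [this]
    obtain ⟨n, hn⟩ := (coe_eq_coe_iff _ _).1 h1
    exact ⟨n, by rw [hGv, hn]; ring⟩
  obtain ⟨d, hd⟩ := hGint (0, 1 / 2)
  have hall : ∀ θ t, X (θ + 1, t) = X (θ, t) + d := by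
    intro θ t
    have h1 := int_valued_const G hGint (θ, t) (0, 1 / 2)
    rw [hd, hGv] at h1
    simp only at h1
    linarith
  refine ⟨X, d, hX', hall, ?_⟩
  rw [degFn_apply]
  have h2 : inc (u.comp α.loop) 0 1 = d := by
    rw [inc_eq (u.comp α.loop) (X.comp ⟨fun θ => (θ, 1 / 2), by fun_prop⟩) (fun θ => hX' _)]
    have h3 := hall 0 (1 / 2)
    rw [zero_add] at h3
    simp only [ContinuousMap.comp_apply, ContinuousMap.coe_mk]
    rw [h3]
    ring
  rw [h2]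
  simp

/-- **Picard-Lefschetz formula** -/
theorem picard_lefschetz (α : Annulus 𝒜) (T : S ≃ₜ S) (hT : IsDehnTwist α T) (w : C(S, 𝕋))
    (hw : IsDual α w) (ξ : Fn S) : push (T : C(S, S)) ξ = ξ + ξ.1 w • degFn α := by
  apply Subtype.ext
  ext u
  obtain ⟨X, d, hX, hXd, hdeg⟩ := exists_lift_annulus α u
  have hXd' : ∀ θ t, X (1 + θ, t) = X (θ, t) + d := fun θ t => by rw [add_comm]; exact hXd θ t
  obtain ⟨k, hk, hk'⟩ := α.glue
    (⟨fun p => X (p.1 + clampC p.2, p.2) - X p - d * clampC p.2, by fun_prop⟩ : C(ℝ × ℝ, ℝ)) (by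
      intro θ t
      simp only [ContinuousMap.coe_mk]
      rw [show θ + 1 + clampC t = (θ + clampC t) + 1 by ring, hXd, hXd]
      ring) (0 : C(S, ℝ)) (by
      intro θ t ht
      rw [mem_Icc, not_and_or, not_le, not_le] at ht
      rcases ht with ht | ht
      · simp [clampC_of_nonpos ht.le]
      · simp [clampC_of_one_le ht.le, hXd])
  have key : u.comp (T : C(S, S)) = u + d • w + expo k := by
    ext x
    have hT' : ((T : C(S, S)) x) = T x := rfl
    rw [ContinuousMap.comp_apply, ContinuousMap.add_apply, ContinuousMap.add_apply,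
      ContinuousMap.smul_apply, hT', expo_apply]
    by_cases hx : x ∈ range α.toFun
    · obtain ⟨⟨θ, t⟩, rfl⟩ := hx
      rw [hT.1, hw.1, hk, ← hX, ← hX, ← AddCircle.coe_zsmul, ← AddCircle.coe_add,
        ← AddCircle.coe_add]
      congr 1
      simp only [ContinuousMap.coe_mk, clampC_apply, zsmul_eq_mul]
      ring
    · rw [hT.2 x hx, hw.2 x hx, hk' x hx]
      simp
  have h1 : (push (T : C(S, S)) ξ).1 u = ξ.1 (u.comp (T : C(S, S))) := rfl
  have h2 : (ξ + ξ.1 w • degFn α).1 u = ξ.1 u + ξ.1 w * (degFn α).1 u := rfl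
  rw [h1, h2, key, map_add, map_add, fn_expo, map_zsmul, hdeg, add_zero, zsmul_eq_mul, mul_comm]

theorem inc_const (c : C(ℝ, 𝕋)) (r : ℝ) (h : ∀ x, c x = ((r : ℝ) : 𝕋)) (a b : ℝ) :
    inc c a b = 0 := by
  rw [inc_eq c (ContinuousMap.const _ r) (fun y => by rw [h]; rfl)]
  simp

theorem degFn_dual_self (α : Annulus 𝒜) (w : C(S, 𝕋)) (hw : IsDual α w) :
    (degFn α).1 w = 0 := by
  rw [degFn_apply, inc_const _ (max 0 (min 1 (1 / 2))) (fun θ => hw.1 θ (1 / 2))]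
  simp

theorem degFn_dual_disjoint (α β : Annulus 𝒜) (w : C(S, 𝕋)) (hw : IsDual β w)
    (h : Disjoint α.core β.core) : (degFn α).1 w = 0 := by
  -- the core of `α` is compact
  have hcore : α.core = α.toFun '' (Icc (0:ℝ) 1 ×ˢ Icc (1/2:ℝ) (1/2)) := by
    ext x
    constructor
    · rintro ⟨θ, rfl⟩
      exact α.mem_slab ⟨le_rfl, le_rfl⟩
    · rintro ⟨⟨θ, t⟩, ⟨-, ht⟩, rfl⟩
      have : t = 1 / 2 := le_antisymm ht.2 ht.1
      subst this
      exact ⟨θ, rfl⟩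
  have hcl : IsClosed α.core := by
    rw [hcore]
    exact (α.isCompact_slab _ _).isClosed
  -- a neighbourhood of the core of `β`
  obtain ⟨ε, hε, hεd⟩ : ∃ ε > 0, ∀ θ t : ℝ, |t - 1 / 2| < ε → β.toFun (θ, t) ∉ α.core := by
    have hopen : IsOpen (β.toFun ⁻¹' (α.core)ᶜ) := hcl.isOpen_compl.preimage β.continuous_toFun
    have hsub : Icc (0:ℝ) 1 ×ˢ ({1 / 2} : Set ℝ) ⊆ β.toFun ⁻¹' (α.core)ᶜ := by
      rintro ⟨θ, t⟩ ⟨-, ht⟩ hmem
      rw [mem_singleton_iff] at ht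
      simp only at ht
      subst ht
      exact (Set.disjoint_left.mp h hmem) ⟨θ, rfl⟩
    obtain ⟨u, v, hu, hv, hu', hv', huv⟩ :=
      generalized_tube_lemma isCompact_Icc isCompact_singleton hopen hsub
    obtain ⟨ε, hε, hball⟩ := Metric.isOpen_iff.mp hv (1 / 2) (hv' rfl)
    refine ⟨ε, hε, fun θ t ht => ?_⟩
    have h1 : β.toFun (θ, t) = β.toFun (Int.fract θ, t) := by
      rw [β.eq_iff]
      exact ⟨⟨⌊θ⌋, Int.self_sub_fract θ⟩, rfl⟩
    rw [h1]
    have h2 : (Int.fract θ, t) ∈ u ×ˢ v := by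
      refine ⟨hu' ⟨Int.fract_nonneg θ, (Int.fract_lt_one θ).le⟩, hball ?_⟩
      rw [Metric.mem_ball, Real.dist_eq]
      exact ht
    exact huv h2
  set δ : ℝ := min ε (1 / 2) with hδ
  have hδ0 : 0 < δ := lt_min hε (by norm_num)
  have hδε : δ ≤ ε := min_le_left _ _
  have hδ2 : δ ≤ 1 / 2 := min_le_right _ _
  -- the modified profile
  set c' : C(ℝ, ℝ) := ⟨fun t => clampC ((t - 1 / 2 + δ) / (2 * δ)), by fun_prop⟩ with hc'
  have hc0 : ∀ t, t ≤ 1 / 2 - δ → c' t = 0 := by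
    intro t ht
    apply clampC_of_nonpos
    apply div_nonpos_of_nonpos_of_nonneg <;> linarith
  have hc1 : ∀ t, 1 / 2 + δ ≤ t → c' t = 1 := by
    intro t ht
    apply clampC_of_one_le
    rw [le_div_iff₀ (by linarith)]
    linarith
  obtain ⟨w', hw', hwn'⟩ := exists_dual_profile β c' (fun t ht => hc0 t (by linarith))
    (fun t ht => hc1 t (by linarith))
  obtain ⟨k, hk⟩ := dual_sub_profile β clampC c' (fun _ => clampC_of_nonpos)
    (fun _ => clampC_of_one_le) (fun t ht => hc0 t (by linarith)) (fun t ht => hc1 t (by linarith))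
    w w' (fun θ t => hw.1 θ t) hw.2 hw' hwn'
  rw [hk, map_add, fn_expo, add_zero, degFn_apply, inc_const _ 0]
  · simp
  · intro θ
    have hmem : α.loop θ ∈ α.core := ⟨θ, rfl⟩
    rw [ContinuousMap.comp_apply]
    by_cases hx : α.loop θ ∈ range β.toFun
    · obtain ⟨⟨θ', t'⟩, hx'⟩ := hx
      rw [← hx', hw']
      have h1 : ¬ |t' - 1 / 2| < ε := by
        intro hlt
        apply hεd θ' t' hlt
        rw [hx']
        exact hmem
      rw [not_lt] at h1
      have h2 : δ ≤ |t' - 1 / 2| := hδε.trans h1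
      rcases le_abs.mp h2 with h3 | h3
      · rw [hc1 t' (by linarith)]
        simp
      · rw [hc0 t' (by linarith)]
    · rw [hwn' _ hx]
      simp

/-- Dehn twists exist. -/
theorem exists_dehnTwist (α : Annulus 𝒜) : ∃ T : S ≃ₜ S, IsDehnTwist α T := by
  have aux : ∀ s : ℝ, (s = 1 ∨ s = -1) → ∃ f : C(S, S),
      (∀ p, f (α.toFun p) = α.toFun (p.1 + s * clampC p.2, p.2)) ∧
        ∀ x, x ∉ range α.toFun → f x = x := by
    intro s hs
    obtain ⟨f, hf, hf'⟩ := α.glue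
      (⟨fun p => α.toFun (p.1 + s * clampC p.2, p.2), α.continuous_toFun.comp (by fun_prop)⟩ :
        C(ℝ × ℝ, S)) (by
          intro θ t
          simp only [ContinuousMap.coe_mk]
          rw [α.eq_iff]
          exact ⟨⟨1, by push_cast; ring⟩, rfl⟩) (ContinuousMap.id S) (by
          intro θ t ht
          simp only [ContinuousMap.coe_mk, ContinuousMap.id_apply]
          rw [α.eq_iff]
          refine ⟨?_, rfl⟩
          rw [mem_Icc, not_and_or, not_le, not_le] at ht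
          rcases ht with ht | ht
          · exact ⟨0, by simp [clampC_of_nonpos ht.le]⟩
          · rcases hs with h1 | h1
            · exact ⟨1, by simp [clampC_of_one_le ht.le, h1]⟩
            · exact ⟨-1, by simp [clampC_of_one_le ht.le, h1]⟩)
    exact ⟨f, hf, hf'⟩
  obtain ⟨f, hf, hf'⟩ := aux 1 (Or.inl rfl)
  obtain ⟨g, hg, hg'⟩ := aux (-1) (Or.inr rfl)
  refine ⟨⟨⟨f, g, ?_, ?_⟩, f.continuous, g.continuous⟩, ?_, ?_⟩
  · intro x
    by_cases hx : x ∈ range α.toFun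
    · obtain ⟨p, rfl⟩ := hx
      rw [hf, hg]
      congr 1
      ext
      · simp
      · simp
    · rw [hf' x hx, hg' x hx]
  · intro x
    by_cases hx : x ∈ range α.toFun
    · obtain ⟨p, rfl⟩ := hx
      rw [hg, hf]
      congr 1
      ext
      · simp
      · simp
    · rw [hg' x hx, hf' x hx]
  · intro θ t
    change f (α.toFun (θ, t)) = _
    rw [hf]
    simp [clampC_apply]
  · intro x hx
    exact hf' x hx

end Pool.Agent.Hhelper31.Penner
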